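import Pool.Agent.N513.PF.Pos

/-!
# The planar order: the twists of a surface with one boundary component
-/

set_option autoImplicit false
set_option linter.unusedSectionVars false
set_option linter.unusedVariables false
set_option linter.unusedSimpArgs false

namespace Pool.Agent.N513.PF

/-! ### Moving a slot -/

/-- move the slot `a` to the slot `b` -/
def mv (a b v : ℕ) : ℕ :=
  if v = a then b else if a < v ∧ v ≤ b then v - 1 else if b ≤ v ∧ v < a then v + 1 else v

lemma mv_self (a b : ℕ) : mv a b a = b := by simp [mv]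

lemma mv_lt {a b u v : ℕ} (hu : u ≠ a) (hv : v ≠ a) : mv a b u < mv a b v ↔ u < v := by
  unfold mv
  rw [if_neg hu, if_neg hv]
  split_ifs <;> omega

lemma mv_mv (a b v : ℕ) : mv a b (mv b a v) = v := by
  unfold mv
  split_ifs <;> omega

lemma mv5656 (o v : ℕ) : mv (o + 5) (o + 6) (mv (o + 5) (o + 6) v) = v := by
  unfold mv
  split_ifs <;> omega

lemma mv_inj (a b : ℕ) : Function.Injective (mv a b) := by
  intro u v h
  have := congrArg (mv b a) h
  rwa [mv_mv, mv_mv] at this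

variable {α : Type*} [DecidableEq α] {n : ℕ}

lemma Arr.mv {p : α × Bool → ℕ} (h : Arr n p) {a b : ℕ} (ha : 0 < a) (ha' : a < n) (hb : 0 < b)
    (hb' : b < n) : Arr n (mv a b ∘ p) where
  inj := (mv_inj a b).comp h.inj
  lo l := by
    have := h.lo l
    show 0 < PF.mv a b (p l)
    unfold PF.mv
    split_ifs <;> omega
  hi l := by
    have := h.hi l
    show PF.mv a b (p l) < n
    unfold PF.mv
    split_ifs <;> omega
  n0 := h.n0

/-- the map preserves the orders -/
def Mn (n : ℕ) (p p' : α × Bool → ℕ) (ψ : FreeGroup α → FreeGroup α) : Prop :=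
  ∀ x y, lt n p x y → lt n p' (ψ x) (ψ y)

lemma Mn.comp {p p' p'' : α × Bool → ℕ} {ψ ψ' : FreeGroup α → FreeGroup α}
    (h' : Mn n p' p'' ψ') (h : Mn n p p' ψ) : Mn n p p'' (ψ' ∘ ψ) :=
  fun x y hxy => h' _ _ (h _ _ hxy)

lemma stepM {p : α × Bool → ℕ} {ψ : FreeGroup α →* FreeGroup α} {d e : α × Bool} (h : Arr n p)
    (hs : Slides ψ d e) {a b q : ℕ} (hd : p d = a) (he : p e + 1 = a) (hq : p (iv e) = q)
    (hb : (q < a ∧ b = q) ∨ (a < q ∧ b + 1 = q)) :
    Arr n (mv a b ∘ p) ∧ Mn n p (mv a b ∘ p) ψ := by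
  have l1 := h.lo d
  have l2 := h.lo e
  have l3 := h.lo (iv e)
  have l4 := h.hi d
  have l5 := h.hi (iv e)
  have h' : Arr n (mv a b ∘ p) := h.mv (by omega) (by omega) (by omega) (by omega)
  refine ⟨h', slide_bwd h h' hs (fun f hf => ?_) (fun f f' hf hf' => ?_) (fun f hf => ?_)⟩
  · have : p f ≠ p d := fun h1 => hf (h.inj h1)
    omega
  · exact mv_lt (fun h1 => hf (h.inj (h1.trans hd.symm))) (fun h1 => hf' (h.inj (h1.trans hd.symm)))
  · have h1 : p f ≠ a := fun h1 => hf (h.inj (h1.trans hd.symm))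
    show mv a b (p f) < mv a b (p d) ↔ mv a b (p f) < mv a b (p (iv e))
    rw [hd, hq, mv_self]
    unfold mv
    split_ifs <;> omega

lemma stepF {p : α × Bool → ℕ} {ψ : FreeGroup α →* FreeGroup α} {d e : α × Bool} (h : Arr n p)
    (hs : Slides ψ d e) {a b q : ℕ} (hd : p d = a) (he : p e = a + 1) (hq : p (iv e) = q)
    (hb : (q < a ∧ b = q + 1) ∨ (a < q ∧ b = q)) :
    Arr n (mv a b ∘ p) ∧ Mn n p (mv a b ∘ p) ψ := by
  have l1 := h.lo d
  have l2 := h.lo e
  have l3 := h.lo (iv e)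
  have l4 := h.hi d
  have l5 := h.hi (iv e)
  have l6 := h.hi e
  have h' : Arr n (mv a b ∘ p) := h.mv (by omega) (by omega) (by omega) (by omega)
  refine ⟨h', slide_fwd h h' hs (fun f hf => ?_) (fun f f' hf hf' => ?_) (fun f hf => ?_)⟩
  · have : p f ≠ p d := fun h1 => hf (h.inj h1)
    omega
  · exact mv_lt (fun h1 => hf (h.inj (h1.trans hd.symm))) (fun h1 => hf' (h.inj (h1.trans hd.symm)))
  · have h1 : p f ≠ a := fun h1 => hf (h.inj (h1.trans hd.symm))
    show mv a b (p f) < mv a b (p d) ↔ mv a b (p f) ≤ mv a b (p (iv e))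
    rw [hd, hq, mv_self]
    unfold mv
    split_ifs <;> omega

/-! ### Slides as automorphisms -/

/-- the slide homomorphism: the letter `d` goes to `e d` -/
def slh (d e : α × Bool) : FreeGroup α →* FreeGroup α :=
  FreeGroup.lift fun a => if a = d.1 then
    (if d.2 then G e * FreeGroup.of a else FreeGroup.of a * G (iv e)) else FreeGroup.of a

lemma G_true (a : α) : G (a, true) = FreeGroup.of a := rfl

lemma G_false (a : α) : G (a, false) = (FreeGroup.of a)⁻¹ := by
  rw [← G_true, ← G_inv]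
  rfl

lemma slh_of (d e : α × Bool) (a : α) : slh d e (FreeGroup.of a) = if a = d.1 then
    (if d.2 then G e * FreeGroup.of a else FreeGroup.of a * G (iv e)) else FreeGroup.of a := by
  unfold slh
  rw [FreeGroup.lift_apply_of]

lemma slides (d e : α × Bool) (h : d.1 ≠ e.1) : Slides (slh d e) d e where
  ne := h
  map := by
    obtain ⟨a, b⟩ := d
    cases b
    · rw [G_false, map_inv, slh_of]
      simp [G_inv]
    · rw [G_true, slh_of]
      simp
  fix f hf := by
    obtain ⟨a, b⟩ := f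
    have ha : a ≠ d.1 := hf
    cases b
    · rw [G_false, map_inv, slh_of, if_neg ha]
    · rw [G_true, slh_of, if_neg ha]

lemma slh_comp (d e : α × Bool) (h : d.1 ≠ e.1) :
    (slh d e).comp (slh d (iv e)) = MonoidHom.id _ := by
  have h' : e.1 ≠ d.1 := h.symm
  have he : slh d e (G e) = G e := (slides d e h).fix e h'
  have hie : slh d e (G (iv e)) = G (iv e) := (slides d e h).fix (iv e) h'
  refine FreeGroup.ext_hom _ _ fun a => ?_
  rw [MonoidHom.comp_apply, slh_of, MonoidHom.id_apply]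
  split_ifs with h1 h2
  · rw [map_mul, hie, slh_of, if_pos h1, if_pos h2, G_iv_mul]
  · rw [map_mul, iv_iv, he, slh_of, if_pos h1, if_neg h2, mul_assoc, G_iv, mul_one]
  · rw [slh_of, if_neg h1]

/-- the slide automorphism -/
def sl (d e : α × Bool) (h : d.1 ≠ e.1) : MulAut (FreeGroup α) :=
  MonoidHom.toMulEquiv (slh d e) (slh d (iv e))
    (by
      have := slh_comp d (iv e) h
      rwa [iv_iv] at this)
    (slh_comp d e h)

lemma sl_apply (d e : α × Bool) (h : d.1 ≠ e.1) (x : FreeGroup α) : sl d e h x = slh d e x := rfl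

/-! ### The surface -/

variable {g : ℕ}

/-- the base arrangement: in the block of `i` the letters are `x_i, y_i⁻¹, x_i⁻¹, y_i` -/
def pos0 (g : ℕ) (l : (Fin g × Bool) × Bool) : ℕ :=
  4 * l.1.1.val + (if l.1.2 then (if l.2 then 4 else 2) else (if l.2 then 1 else 3))

lemma pos0_arr (g : ℕ) : Arr (4 * g + 1) (pos0 g) where
  inj := by
    rintro ⟨⟨⟨i, hi⟩, b⟩, s⟩ ⟨⟨⟨j, hj⟩, c⟩, t⟩ h
    unfold pos0 at h
    simp only at h
    have key : i = j ∧ b = c ∧ s = t := by
      cases b <;> cases s <;> cases c <;> cases t <;> simp at h ⊢ <;> omega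
    obtain ⟨rfl, rfl, rfl⟩ := key
    rfl
  lo := by
    rintro ⟨⟨⟨i, hi⟩, b⟩, s⟩
    unfold pos0
    cases b <;> cases s <;> simp
  hi := by
    rintro ⟨⟨⟨i, hi⟩, b⟩, s⟩
    unfold pos0
    cases b <;> cases s <;> simp <;> omega
  n0 := by omega

/-- the homomorphism `y_i ↦ v y_i`, `x_j ↦ v x_j v⁻¹`, `y_j ↦ y_j v⁻¹` -/
def cw (i j : Fin g) (v : FreeGroup (Fin g × Bool)) :
    FreeGroup (Fin g × Bool) →* FreeGroup (Fin g × Bool) :=
  FreeGroup.lift fun a => if a = (i, true) then v * FreeGroup.of a else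
    if a = (j, false) then v * FreeGroup.of a * v⁻¹ else
    if a = (j, true) then FreeGroup.of a * v⁻¹ else FreeGroup.of a

/-- the curve `y_i x_i⁻¹ y_i⁻¹ x_j` -/
def wij (i j : Fin g) : FreeGroup (Fin g × Bool) :=
  FreeGroup.of (i, true) * (FreeGroup.of (i, false))⁻¹ * (FreeGroup.of (i, true))⁻¹ *
    FreeGroup.of (j, false)

lemma cw_of (i j : Fin g) (v : FreeGroup (Fin g × Bool)) (a : Fin g × Bool) :
    cw i j v (FreeGroup.of a) = if a = (i, true) then v * FreeGroup.of a else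
    if a = (j, false) then v * FreeGroup.of a * v⁻¹ else
    if a = (j, true) then FreeGroup.of a * v⁻¹ else FreeGroup.of a := by
  unfold cw
  rw [FreeGroup.lift_apply_of]

lemma cw_slides (i j : Fin g) (h : i ≠ j) : cw i j (wij i j) =
    (slh ((j, false), true) ((i, true), false)).comp
    ((slh ((j, false), true) ((i, false), false)).comp
    ((slh ((j, false), true) ((i, true), true)).comp
    ((slh ((j, true), false) ((j, false), true)).comp
    ((slh ((i, true), true) ((j, false), true)).comp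
    ((slh ((j, false), true) ((i, true), false)).comp
    ((slh ((j, false), true) ((i, false), true)).comp
    (slh ((j, false), true) ((i, true), true)))))))) := by
  have h' : j ≠ i := h.symm
  refine FreeGroup.ext_hom _ _ fun a => ?_
  simp only [MonoidHom.comp_apply]
  obtain ⟨k, b⟩ := a
  by_cases h1 : k = i
  · subst h1
    cases b
    · simp [cw_of, slh_of, h, h', G_true, G_false, iv]
    · simp [cw_of, slh_of, h, h', G_true, G_false, iv, wij, mul_assoc]
  · by_cases h2 : k = j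
    · subst h2
      cases b
      · simp [cw_of, slh_of, h, h', G_true, G_false, iv, wij, mul_assoc]
      · simp [cw_of, slh_of, h, h', G_true, G_false, iv, wij, mul_assoc]
    · simp [cw_of, slh_of, h, h', h1, h2]

lemma mv231 (o : ℕ) : mv (o + 2) (o + 3) (o + 1) = o + 1 := by
  unfold mv
  split_ifs <;> omega

lemma mv232 (o : ℕ) : mv (o + 2) (o + 3) (o + 2) = o + 3 := by
  unfold mv
  split_ifs <;> omega

lemma mv233 (o : ℕ) : mv (o + 2) (o + 3) (o + 3) = o + 2 := by
  unfold mv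
  split_ifs <;> omega

lemma mv234 (o : ℕ) : mv (o + 2) (o + 3) (o + 4) = o + 4 := by
  unfold mv
  split_ifs <;> omega

lemma mv235 (o : ℕ) : mv (o + 2) (o + 3) (o + 5) = o + 5 := by
  unfold mv
  split_ifs <;> omega

lemma mv236 (o : ℕ) : mv (o + 2) (o + 3) (o + 6) = o + 6 := by
  unfold mv
  split_ifs <;> omega

lemma mv237 (o : ℕ) : mv (o + 2) (o + 3) (o + 7) = o + 7 := by
  unfold mv
  split_ifs <;> omega

lemma mv342 (o : ℕ) : mv (o + 3) (o + 4) (o + 2) = o + 2 := by
  unfold mv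
  split_ifs <;> omega

lemma mv343 (o : ℕ) : mv (o + 3) (o + 4) (o + 3) = o + 4 := by
  unfold mv
  split_ifs <;> omega

lemma mv345 (o : ℕ) : mv (o + 3) (o + 4) (o + 5) = o + 5 := by
  unfold mv
  split_ifs <;> omega

lemma mv346 (o : ℕ) : mv (o + 3) (o + 4) (o + 6) = o + 6 := by
  unfold mv
  split_ifs <;> omega

lemma mv347 (o : ℕ) : mv (o + 3) (o + 4) (o + 7) = o + 7 := by
  unfold mv
  split_ifs <;> omega

lemma mv521 (o : ℕ) : mv (o + 5) (o + 2) (o + 1) = o + 1 := by
  unfold mv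
  split_ifs <;> omega

lemma mv522 (o : ℕ) : mv (o + 5) (o + 2) (o + 2) = o + 3 := by
  unfold mv
  split_ifs <;> omega

lemma mv523 (o : ℕ) : mv (o + 5) (o + 2) (o + 3) = o + 4 := by
  unfold mv
  split_ifs <;> omega

lemma mv524 (o : ℕ) : mv (o + 5) (o + 2) (o + 4) = o + 5 := by
  unfold mv
  split_ifs <;> omega

lemma mv525 (o : ℕ) : mv (o + 5) (o + 2) (o + 5) = o + 2 := by
  unfold mv
  split_ifs <;> omega

lemma mv526 (o : ℕ) : mv (o + 5) (o + 2) (o + 6) = o + 6 := by
  unfold mv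
  split_ifs <;> omega

lemma mv527 (o : ℕ) : mv (o + 5) (o + 2) (o + 7) = o + 7 := by
  unfold mv
  split_ifs <;> omega

lemma mv564 (o : ℕ) : mv (o + 5) (o + 6) (o + 4) = o + 4 := by
  unfold mv
  split_ifs <;> omega

lemma mv566 (o : ℕ) : mv (o + 5) (o + 6) (o + 6) = o + 5 := by
  unfold mv
  split_ifs <;> omega

lemma mv567 (o : ℕ) : mv (o + 5) (o + 6) (o + 7) = o + 7 := by
  unfold mv
  split_ifs <;> omega

/-- the homomorphism preserves the order -/
theorem cw_mono (i j : Fin g) (hj : j.val = i.val + 1) :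
    Mn (4 * g + 1) (pos0 g) (pos0 g) (cw i j (wij i j)) := by
  have hne : i ≠ j := fun h => by rw [h] at hj; omega
  have hne' : (j, false) ≠ ((i, true) : Fin g × Bool) := fun h => hne (congrArg Prod.fst h).symm
  have hne1 : (j, false) ≠ ((i, false) : Fin g × Bool) := fun h => hne (congrArg Prod.fst h).symm
  have hne2 : (j, true) ≠ ((j, false) : Fin g × Bool) := fun h => by
    have := congrArg Prod.snd h
    simp at this
  have hne3 : (i, true) ≠ ((j, false) : Fin g × Bool) := hne'.symm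
  -- the positions at the start
  have x1 : pos0 g ((i, false), true) = 4 * i.val + 1 := rfl
  have X1 : pos0 g ((i, false), false) = 4 * i.val + 3 := rfl
  have y1 : pos0 g ((i, true), true) = 4 * i.val + 4 := rfl
  have Y1 : pos0 g ((i, true), false) = 4 * i.val + 2 := rfl
  have x2 : pos0 g ((j, false), true) = 4 * i.val + 5 := by
    show 4 * j.val + 1 = 4 * i.val + 5
    omega
  have X2 : pos0 g ((j, false), false) = 4 * i.val + 7 := by
    show 4 * j.val + 3 = 4 * i.val + 7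
    omega
  have y2 : pos0 g ((j, true), true) = 4 * i.val + 8 := by
    show 4 * j.val + 4 = 4 * i.val + 8
    omega
  have Y2 : pos0 g ((j, true), false) = 4 * i.val + 6 := by
    show 4 * j.val + 2 = 4 * i.val + 6
    omega
  generalize 4 * i.val = o at *
  have A0 := pos0_arr g
  generalize pos0 g = p0 at *
  generalize 4 * g + 1 = N at *
  -- the arrangements
  obtain ⟨p1, hp1⟩ : ∃ p1, p1 = mv (o + 5) (o + 2) ∘ p0 := ⟨_, rfl⟩
  obtain ⟨p2, hp2⟩ : ∃ p2, p2 = mv (o + 2) (o + 3) ∘ p1 := ⟨_, rfl⟩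
  obtain ⟨p3, hp3⟩ : ∃ p3, p3 = mv (o + 3) (o + 4) ∘ p2 := ⟨_, rfl⟩
  obtain ⟨p4, hp4⟩ : ∃ p4, p4 = mv (o + 5) (o + 6) ∘ p3 := ⟨_, rfl⟩
  have q1 : ∀ l, p1 l = mv (o + 5) (o + 2) (p0 l) := fun l => by rw [hp1]; rfl
  have q2 : ∀ l, p2 l = mv (o + 2) (o + 3) (p1 l) := fun l => by rw [hp2]; rfl
  have q3 : ∀ l, p3 l = mv (o + 3) (o + 4) (p2 l) := fun l => by rw [hp3]; rfl
  have q4 : ∀ l, p4 l = mv (o + 5) (o + 6) (p3 l) := fun l => by rw [hp4]; rfl
  have ev1 : ∀ (l : (Fin g × Bool) × Bool) (v v' : ℕ), p0 l = v → mv (o + 5) (o + 2) v = v' →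
      p1 l = v' := fun l v v' h1 h2 => by rw [q1, h1, h2]
  have ev2 : ∀ (l : (Fin g × Bool) × Bool) (v v' : ℕ), p1 l = v → mv (o + 2) (o + 3) v = v' →
      p2 l = v' := fun l v v' h1 h2 => by rw [q2, h1, h2]
  have ev3 : ∀ (l : (Fin g × Bool) × Bool) (v v' : ℕ), p2 l = v → mv (o + 3) (o + 4) v = v' →
      p3 l = v' := fun l v v' h1 h2 => by rw [q3, h1, h2]
  have ev4 : ∀ (l : (Fin g × Bool) × Bool) (v v' : ℕ), p3 l = v → mv (o + 5) (o + 6) v = v' →
      p4 l = v' := fun l v v' h1 h2 => by rw [q4, h1, h2]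
  -- positions after the first move
  have x1_1 : p1 ((i, false), true) = o + 1 := ev1 _ _ _ x1 (mv521 o)
  have X1_1 : p1 ((i, false), false) = o + 4 := ev1 _ _ _ X1 (mv523 o)
  have y1_1 : p1 ((i, true), true) = o + 5 := ev1 _ _ _ y1 (mv524 o)
  have Y1_1 : p1 ((i, true), false) = o + 3 := ev1 _ _ _ Y1 (mv522 o)
  have x2_1 : p1 ((j, false), true) = o + 2 := ev1 _ _ _ x2 (mv525 o)
  have X2_1 : p1 ((j, false), false) = o + 7 := ev1 _ _ _ X2 (mv527 o)
  have Y2_1 : p1 ((j, true), false) = o + 6 := ev1 _ _ _ Y2 (mv526 o)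
  -- second
  have x1_2 : p2 ((i, false), true) = o + 1 := ev2 _ _ _ x1_1 (mv231 o)
  have X1_2 : p2 ((i, false), false) = o + 4 := ev2 _ _ _ X1_1 (mv234 o)
  have y1_2 : p2 ((i, true), true) = o + 5 := ev2 _ _ _ y1_1 (mv235 o)
  have Y1_2 : p2 ((i, true), false) = o + 2 := ev2 _ _ _ Y1_1 (mv233 o)
  have x2_2 : p2 ((j, false), true) = o + 3 := ev2 _ _ _ x2_1 (mv232 o)
  have X2_2 : p2 ((j, false), false) = o + 7 := ev2 _ _ _ X2_1 (mv237 o)
  have Y2_2 : p2 ((j, true), false) = o + 6 := ev2 _ _ _ Y2_1 (mv236 o)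
  -- third
  have y1_3 : p3 ((i, true), true) = o + 5 := ev3 _ _ _ y1_2 (mv345 o)
  have Y1_3 : p3 ((i, true), false) = o + 2 := ev3 _ _ _ Y1_2 (mv342 o)
  have x2_3 : p3 ((j, false), true) = o + 4 := ev3 _ _ _ x2_2 (mv343 o)
  have X2_3 : p3 ((j, false), false) = o + 7 := ev3 _ _ _ X2_2 (mv347 o)
  have Y2_3 : p3 ((j, true), false) = o + 6 := ev3 _ _ _ Y2_2 (mv346 o)
  -- fourth
  have x2_4 : p4 ((j, false), true) = o + 4 := ev4 _ _ _ x2_3 (mv564 o)
  have X2_4 : p4 ((j, false), false) = o + 7 := ev4 _ _ _ X2_3 (mv567 o)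
  have Y2_4 : p4 ((j, true), false) = o + 5 := ev4 _ _ _ Y2_3 (mv566 o)
  -- the slides
  obtain ⟨A1, M1⟩ := stepM A0 (slides ((j, false), true) ((i, true), true) hne') (a := o + 5)
    (b := o + 2) (q := o + 2) x2 (by rw [y1]) Y1 (by omega)
  rw [← hp1] at A1 M1
  obtain ⟨A2, M2⟩ := stepM A1 (slides ((j, false), true) ((i, false), true) hne1) (a := o + 2)
    (b := o + 3) (q := o + 4) x2_1 (by rw [x1_1]) X1_1 (by omega)
  rw [← hp2] at A2 M2
  obtain ⟨A3, M3⟩ := stepM A2 (slides ((j, false), true) ((i, true), false) hne') (a := o + 3)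
    (b := o + 4) (q := o + 5) x2_2 (by rw [Y1_2]) y1_2 (by omega)
  rw [← hp3] at A3 M3
  obtain ⟨A4, M4⟩ := stepM A3 (slides ((i, true), true) ((j, false), true) hne3) (a := o + 5)
    (b := o + 6) (q := o + 7) y1_3 (by rw [x2_3]) X2_3 (by omega)
  rw [← hp4] at A4 M4
  obtain ⟨A5, M5⟩ := stepM A4 (slides ((j, true), false) ((j, false), true) hne2) (a := o + 5)
    (b := o + 6) (q := o + 7) Y2_4 (by rw [x2_4]) X2_4 (by omega)
  have e5 : mv (o + 5) (o + 6) ∘ p4 = p3 := by
    funext l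
    show mv (o + 5) (o + 6) (p4 l) = p3 l
    rw [q4, mv5656]
  rw [e5] at A5 M5
  obtain ⟨A6, M6⟩ := stepF A3 (slides ((j, false), true) ((i, true), true) hne') (a := o + 4)
    (b := o + 3) (q := o + 2) x2_3 (by rw [y1_3]) Y1_3 (by omega)
  have e6 : mv (o + 4) (o + 3) ∘ p3 = p2 := by
    funext l
    show mv (o + 4) (o + 3) (p3 l) = p2 l
    rw [q3, mv_mv]
  rw [e6] at A6 M6
  obtain ⟨A7, M7⟩ := stepF A2 (slides ((j, false), true) ((i, false), false) hne1) (a := o + 3)
    (b := o + 2) (q := o + 1) x2_2 (by rw [X1_2]) x1_2 (by omega)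
  have e7 : mv (o + 3) (o + 2) ∘ p2 = p1 := by
    funext l
    show mv (o + 3) (o + 2) (p2 l) = p1 l
    rw [q2, mv_mv]
  rw [e7] at A7 M7
  obtain ⟨A8, M8⟩ := stepF A1 (slides ((j, false), true) ((i, true), false) hne') (a := o + 2)
    (b := o + 5) (q := o + 5) x2_1 (by rw [Y1_1]) y1_1 (by omega)
  have e8 : mv (o + 2) (o + 5) ∘ p1 = p0 := by
    funext l
    show mv (o + 2) (o + 5) (p1 l) = p0 l
    rw [q1, mv_mv]
  rw [e8] at A8 M8
  have hM := M8.comp (M7.comp (M6.comp (M5.comp (M4.comp (M3.comp (M2.comp M1))))))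
  have hE := cw_slides i j hne
  intro x y hxy
  rw [hE]
  exact hM x y hxy

end Pool.Agent.N513.PF
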