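import Pool.Agent.N513.PF.Ord

/-!
# The planar order: invariance of the cyclic order, uniqueness
-/

set_option autoImplicit false
set_option linter.unusedSectionVars false

namespace Pool.Agent.N513.PF

variable {α : Type*} [DecidableEq α]

/-! ### Four points -/

section four

variable {β : Type*} {r : β → β → Prop}

lemma four_aux (tr : ∀ a b c, r a b → r b c → r a c) {t x y z : β}
    (tx : r t x ∨ r x t) (ty : r t y ∨ r y t) (tz : r t z ∨ r z t) (h1 : r x y) (h2 : r y z) :
    Cyc (fun u v => Cyc r t u v) x y z := by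
  unfold Cyc
  rcases tx with a | a
  · -- t < x
    left
    exact ⟨Or.inl ⟨a, h1⟩, Or.inl ⟨tr _ _ _ a h1, h2⟩⟩
  · rcases ty with b | b
    · -- x < t < y
      right; left
      exact ⟨Or.inl ⟨b, h2⟩, Or.inr (Or.inr ⟨a, tr _ _ _ b h2⟩)⟩
    · rcases tz with c | c
      · right; right
        exact ⟨Or.inr (Or.inr ⟨a, c⟩), Or.inr (Or.inl ⟨h1, b⟩)⟩
      · left
        exact ⟨Or.inr (Or.inl ⟨h1, b⟩), Or.inr (Or.inl ⟨h2, c⟩)⟩

lemma four (tr : ∀ a b c, r a b → r b c → r a c) {t x y z : β}
    (tx : r t x ∨ r x t) (ty : r t y ∨ r y t) (tz : r t z ∨ r z t) (h : Cyc r x y z) :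
    Cyc (fun u v => Cyc r t u v) x y z := by
  rcases h with ⟨h1, h2⟩ | ⟨h1, h2⟩ | ⟨h1, h2⟩
  · exact four_aux tr tx ty tz h1 h2
  · exact (four_aux tr ty tz tx h1 h2).rot.rot
  · exact (four_aux tr tz tx ty h1 h2).rot

lemma four_rev_aux (ir : ∀ a, ¬ r a a) (tr : ∀ a b c, r a b → r b c → r a c) {t x y z : β}
    (h1 : Cyc r t x y) (h2 : Cyc r t y z) : Cyc r x y z := by
  rcases h1 with ⟨a1, a2⟩ | ⟨a1, a2⟩ | ⟨a1, a2⟩ <;>
  rcases h2 with ⟨b1, b2⟩ | ⟨b1, b2⟩ | ⟨b1, b2⟩
  · exact Or.inl ⟨a2, b2⟩
  · exact absurd (tr _ _ _ (tr _ _ _ (tr _ _ _ a1 a2) b1) b2) (ir _)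
  · exact Or.inr (Or.inr ⟨tr _ _ _ b1 a1, a2⟩)
  · exact absurd (tr _ _ _ a2 b1) (ir _)
  · exact Or.inl ⟨a1, b1⟩
  · exact absurd (tr _ _ _ a2 b2) (ir _)
  · exact absurd (tr _ _ _ a1 b1) (ir _)
  · exact Or.inr (Or.inl ⟨b1, tr _ _ _ b2 a2⟩)
  · exact absurd (tr _ _ _ a1 b2) (ir _)

lemma four_rev (ir : ∀ a, ¬ r a a) (tr : ∀ a b c, r a b → r b c → r a c) {t x y z : β}
    (h : Cyc (fun u v => Cyc r t u v) x y z) : Cyc r x y z := by
  rcases h with ⟨h1, h2⟩ | ⟨h1, h2⟩ | ⟨h1, h2⟩
  · exact four_rev_aux ir tr h1 h2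
  · exact (four_rev_aux ir tr h1 h2).rot.rot
  · exact (four_rev_aux ir tr h1 h2).rot

end four

variable {n : ℕ} {pos : α × Bool → ℕ}

/-- the element starts with the letter -/
def In (pos : α × Bool → ℕ) (l : α × Bool) (x : FreeGroup α) : Prop := hd pos x.toWord = pos l

lemma in_iff (h : Arr n pos) (l : α × Bool) (x : FreeGroup α) :
    In pos l x ↔ ∃ s, x.toWord = l :: s := by
  unfold In
  constructor
  · intro e
    cases hx : x.toWord with
    | nil =>
      rw [hx] at e
      have := h.lo l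
      simp only [hd] at e
      omega
    | cons a s =>
      rw [hx] at e
      simp only [hd] at e
      exact ⟨s, by rw [h.inj e]⟩
  · rintro ⟨s, e⟩
    rw [e]
    rfl

/-- the letter as an element -/
def G (l : α × Bool) : FreeGroup α := FreeGroup.mk [l]

lemma G_iv (l : α × Bool) : G (iv l) * G l = 1 := by
  unfold G iv
  rw [FreeGroup.mul_mk]
  have e : FreeGroup.mk ([(l.1, !l.2)] ++ [l]) = FreeGroup.mk ([] : List (α × Bool)) := by
    apply Quot.sound
    exact FreeGroup.Red.Step.cons_not_rev (x := l.1) (b := l.2)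
  rw [e]
  rfl

lemma G_iv_mul (l : α × Bool) (x : FreeGroup α) : G (iv l) * (G l * x) = x := by
  rw [← mul_assoc, G_iv, one_mul]

lemma G_inv (l : α × Bool) : G (iv l) = (G l)⁻¹ := eq_inv_of_mul_eq_one_left (G_iv l)

lemma tw_G (h : Arr n pos) {l : α × Bool} {x : FreeGroup α} (hx : ¬ In pos (iv l) x) :
    (G l * x).toWord = l :: x.toWord := by
  refine tw_cons fun s hs => hx ?_
  exact (in_iff h _ _).2 ⟨s, hs⟩

lemma F0 (h : Arr n pos) {l : α × Bool} {x : FreeGroup α} (hx : ¬ In pos (iv l) x) :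
    In pos l (G l * x) := (in_iff h _ _).2 ⟨_, tw_G h hx⟩

lemma not_both {x : FreeGroup α} {l : α × Bool} {s s' : List (α × Bool)}
    (h : x.toWord = iv l :: l :: s) : False := by
  have h1 : FreeGroup.IsReduced x.toWord := FreeGroup.isReduced_toWord
  rw [h, FreeGroup.isReduced_cons_cons] at h1
  have h2 := h1.1 rfl
  have h3 : (iv l).2 = !l.2 := rfl
  rw [h3] at h2
  cases hl : l.2 <;> rw [hl] at h2 <;> simp at h2

lemma F1 (h : Arr n pos) {l : α × Bool} {x : FreeGroup α} (hx : In pos (iv l) x) :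
    ¬ In pos l (G l * x) := by
  obtain ⟨s, hs⟩ := (in_iff h _ _).1 hx
  intro hc
  obtain ⟨s', hs'⟩ := (in_iff h _ _).1 hc
  have e : (G l * x).toWord = s := tw_cancel hs
  rw [e] at hs'
  rw [hs'] at hs
  exact not_both (s' := s) hs

lemma star (h : Arr n pos) {p : ℕ} (hp : p < n) {t x y : FreeGroup α}
    (ht : hd pos t.toWord = p) (hx : hd pos x.toWord ≠ p) (hy : hd pos y.toWord ≠ p) :
    ltp n pos p x.toWord y.toWord ↔ Cyc (lt n pos) t x y := by
  unfold Cyc
  rw [ltp_iff h hp, lt_iff_hd h (by rw [ht]; exact hx.symm), lt_iff_hd h (x := y) (y := t)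
    (by rw [ht]; exact hy), lt_iff h x y, ht]
  have h1 := hd_lt h x.toWord
  have h2 := hd_lt h y.toWord
  rw [key_val hp h1, key_val hp h2]
  generalize hd pos x.toWord = a at *
  generalize hd pos y.toWord = b at *
  by_cases hab : a = b
  · subst hab
    simp only [_root_.lt_irrefl, false_or, true_and]
    constructor
    · intro h3
      rcases Nat.lt_or_gt_of_ne hx with h4 | h4
      · exact Or.inr (Or.inl ⟨h3, h4⟩)
      · exact Or.inl ⟨h4, h3⟩
    · rintro (h3 | h3 | h3)
      · exact h3.2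
      · exact h3.1
      · omega
  · simp only [hab, false_and, or_false]
    split_ifs <;> omega

lemma F2 (h : Arr n pos) {l : α × Bool} {t x y : FreeGroup α} (ht : In pos (iv l) t)
    (hx : ¬ In pos (iv l) x) (hy : ¬ In pos (iv l) y) :
    lt n pos (G l * x) (G l * y) ↔ Cyc (lt n pos) t x y := by
  rw [← star h (h.hi (iv l)) ht hx hy]
  unfold lt ltp
  rw [tw_G h hx, tw_G h hy]
  show (key n 0 (pos l) :: code n pos (pos (iv l)) x.toWord <
    key n 0 (pos l) :: code n pos (pos (iv l)) y.toWord) ↔ _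
  rw [List.cons_lt_cons_iff]
  simp

lemma F3 (h : Arr n pos) {l : α × Bool} {t x y : FreeGroup α} (ht : In pos l t)
    (hx : In pos (iv l) x) (hy : In pos (iv l) y) :
    lt n pos x y ↔ Cyc (lt n pos) t (G l * x) (G l * y) := by
  have h1 := F2 h (l := iv l) (t := t) (x := G l * x) (y := G l * y)
    (by rw [iv_iv]; exact ht) (by rw [iv_iv]; exact F1 h hx) (by rw [iv_iv]; exact F1 h hy)
  rw [G_iv_mul, G_iv_mul] at h1
  exact h1

lemma ne_tot (h : Arr n pos) {x y : FreeGroup α} (hxy : hd pos x.toWord ≠ hd pos y.toWord) :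
    lt n pos x y ∨ lt n pos y x := by
  rcases Nat.lt_or_gt_of_ne hxy with h1 | h1
  · exact Or.inl (lt_of_hd h h1)
  · exact Or.inr (lt_of_hd h h1)

lemma G_in (h : Arr n pos) (l : α × Bool) : In pos l (G l) := by
  refine (in_iff h _ _).2 ⟨[], ?_⟩
  unfold G
  rw [FreeGroup.toWord_mk]
  exact FreeGroup.IsReduced.singleton.reduce_eq

lemma case_one (h : Arr n pos) {l : α × Bool} {x y z : FreeGroup α} (hx : In pos (iv l) x)
    (hy : ¬ In pos (iv l) y) (hz : ¬ In pos (iv l) z) (hc : Cyc (lt n pos) x y z) :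
    Cyc (lt n pos) (G l * x) (G l * y) (G l * z) := by
  have h1 := (F2 h hx hy hz).2 hc
  have h2 := F1 h hx
  have h3 := F0 h hy
  have h4 := F0 h hz
  unfold In at h2 h3 h4
  rcases Nat.lt_or_gt_of_ne h2 with h5 | h5
  · exact Or.inl ⟨lt_of_hd h (by rw [h3]; exact h5), h1⟩
  · exact Or.inr (Or.inl ⟨h1, lt_of_hd h (by rw [h4]; exact h5)⟩)

lemma case_two (h : Arr n pos) {l : α × Bool} {x y z : FreeGroup α} (hx : ¬ In pos (iv l) x)
    (hy : In pos (iv l) y) (hz : In pos (iv l) z) (hc : Cyc (lt n pos) x y z) :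
    Cyc (lt n pos) (G l * x) (G l * y) (G l * z) := by
  refine (F3 h (F0 h hx) hy hz).1 ?_
  rcases hc with hc | hc | hc
  · exact hc.2
  · exact hc.1
  · exfalso
    unfold In at hx hy hz
    have h1 := (lt_iff_hd h (x := z) (y := x) (by rw [hz]; exact hx ∘ Eq.symm)).1 hc.1
    have h2 := (lt_iff_hd h (x := x) (y := y) (by rw [hy]; exact hx)).1 hc.2
    omega

/-- the cyclic order is invariant under the multiplication by letters -/
theorem cyc_letter (h : Arr n pos) (l : α × Bool) {x y z : FreeGroup α}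
    (hc : Cyc (lt n pos) x y z) : Cyc (lt n pos) (G l * x) (G l * y) (G l * z) := by
  by_cases hx : In pos (iv l) x <;> by_cases hy : In pos (iv l) y <;>
    by_cases hz : In pos (iv l) z
  · -- three
    have hs := G_in h l
    have e : ∀ u v : FreeGroup α, In pos (iv l) u → In pos (iv l) v →
        (lt n pos u v → Cyc (lt n pos) (G l) (G l * u) (G l * v)) :=
      fun u v hu hv => (F3 h hs hu hv).1
    refine four_rev (t := G l) lt_irrefl (fun _ _ _ h1 h2 => lt_trans h1 h2) ?_
    rcases hc with ⟨h1, h2⟩ | ⟨h1, h2⟩ | ⟨h1, h2⟩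
    · exact Or.inl ⟨e _ _ hx hy h1, e _ _ hy hz h2⟩
    · exact Or.inr (Or.inl ⟨e _ _ hy hz h1, e _ _ hz hx h2⟩)
    · exact Or.inr (Or.inr ⟨e _ _ hz hx h1, e _ _ hx hy h2⟩)
  · exact (case_two h hz hx hy hc.rot.rot).rot
  · exact (case_two h hy hz hx hc.rot).rot.rot
  · exact case_one h hx hy hz hc
  · exact case_two h hx hy hz hc
  · exact (case_one h hy hz hx hc.rot).rot.rot
  · exact (case_one h hz hx hy hc.rot.rot).rot
  · -- none
    have ht : In pos (iv l) (G (iv l)) := G_in h (iv l)
    have e : ∀ u v : FreeGroup α, ¬ In pos (iv l) u → ¬ In pos (iv l) v →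
        (Cyc (lt n pos) (G (iv l)) u v → lt n pos (G l * u) (G l * v)) :=
      fun u v hu hv => (F2 h ht hu hv).2
    have tot : ∀ u : FreeGroup α, ¬ In pos (iv l) u →
        lt n pos (G (iv l)) u ∨ lt n pos u (G (iv l)) := by
      intro u hu
      refine ne_tot h ?_
      unfold In at hu ht
      rw [ht]
      exact fun h1 => hu h1.symm
    have h1 := four (r := lt n pos) (fun _ _ _ h1 h2 => lt_trans h1 h2) (tot x hx) (tot y hy) (tot z hz) hc
    rcases h1 with ⟨h1, h2⟩ | ⟨h1, h2⟩ | ⟨h1, h2⟩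
    · exact Or.inl ⟨e _ _ hx hy h1, e _ _ hy hz h2⟩
    · exact Or.inr (Or.inl ⟨e _ _ hy hz h1, e _ _ hz hx h2⟩)
    · exact Or.inr (Or.inr ⟨e _ _ hz hx h1, e _ _ hx hy h2⟩)

/-- the cyclic order is left invariant -/
theorem cyc_mul (h : Arr n pos) (u : FreeGroup α) {x y z : FreeGroup α}
    (hc : Cyc (lt n pos) x y z) : Cyc (lt n pos) (u * x) (u * y) (u * z) := by
  rw [← FreeGroup.mk_toWord (x := u)]
  generalize u.toWord = w
  induction w with
  | nil =>
    have e : FreeGroup.mk ([] : List (α × Bool)) = 1 := rfl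
    rw [e, one_mul, one_mul, one_mul]
    exact hc
  | cons l w ih =>
    have e : FreeGroup.mk (l :: w) = G l * FreeGroup.mk w := by
      unfold G
      rw [FreeGroup.mul_mk]
      rfl
    rw [e, mul_assoc, mul_assoc, mul_assoc]
    exact cyc_letter h l ih

/-- uniqueness of the order -/
theorem unique (h : Arr n pos) (r : FreeGroup α → FreeGroup α → Prop)
    (h1 : ∀ (l : α × Bool) (x y z : FreeGroup α), Cyc r x y z →
      Cyc r (G l * x) (G l * y) (G l * z))
    (h2 : ∀ x y : FreeGroup α, hd pos x.toWord < hd pos y.toWord → r x y)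
    (h3 : ∀ x y : FreeGroup α, r x y → ¬ r y x) :
    ∀ x y : FreeGroup α, lt n pos x y → r x y := by
  have key : ∀ (m : ℕ) (x y : FreeGroup α), x.toWord.length + y.toWord.length ≤ m →
      lt n pos x y → r x y := by
    intro m
    induction m with
    | zero =>
      intro x y hm hl
      exfalso
      have hx : x.toWord = [] := List.length_eq_zero_iff.1 (by omega)
      have hy : y.toWord = [] := List.length_eq_zero_iff.1 (by omega)
      unfold lt at hl
      rw [hx, hy] at hl
      unfold ltp at hl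
      exact _root_.lt_irrefl _ hl
    | succ m ih =>
      intro x y hm hl
      rcases (lt_iff h x y).1 hl with hh | ⟨he, hr⟩
      · exact h2 x y hh
      · cases hx : x.toWord with
        | nil =>
          exfalso
          rw [hx] at he hr
          cases hy : y.toWord with
          | nil =>
            rw [hy] at hr
            exact _root_.lt_irrefl _ hr
          | cons a s =>
            rw [hy] at he
            have := h.lo a
            simp only [hd] at he
            omega
        | cons l s =>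
          have hyl : In pos l y := by
            unfold In
            rw [← he, hx]
            rfl
          obtain ⟨s', hs'⟩ := (in_iff h _ _).1 hyl
          have ex : (G (iv l) * x).toWord = s := tw_cancel (by rw [iv_iv]; exact hx)
          have ey : (G (iv l) * y).toWord = s' := tw_cancel (by rw [iv_iv]; exact hs')
          have hxl : In pos l x := (in_iff h _ _).2 ⟨s, hx⟩
          -- transport of the relation
          have hC : Cyc (lt n pos) (G (iv l)) (G (iv l) * x) (G (iv l) * y) := by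
            refine (F3 h (l := iv l) (t := G (iv l)) (x := x) (y := y) (G_in h _) ?_ ?_).1 hl
            · rw [iv_iv]; exact hxl
            · rw [iv_iv]; exact hyl
          obtain ⟨x1, hx1⟩ : ∃ x1, x1 = G (iv l) * x := ⟨_, rfl⟩
          obtain ⟨y1, hy1⟩ : ∃ y1, y1 = G (iv l) * y := ⟨_, rfl⟩
          have nx : ¬ In pos (iv l) x1 := by
            rw [hx1]
            have := F1 h (l := iv l) (x := x) (by rw [iv_iv]; exact hxl)
            exact this
          have ny : ¬ In pos (iv l) y1 := by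
            rw [hy1]
            have := F1 h (l := iv l) (x := y) (by rw [iv_iv]; exact hyl)
            exact this
          rw [← hx1, ← hy1] at hC
          rw [← hx1] at ex
          rw [← hy1] at ey
          have lx : x1.toWord.length + 1 = x.toWord.length := by rw [ex, hx]; rfl
          have ly : y1.toWord.length + 1 = y.toWord.length := by rw [ey, hs']; rfl
          have gt : hd pos (G (iv l)).toWord = pos (iv l) := G_in h _
          have a1 : lt n pos (G (iv l)) x1 → r (G (iv l)) x1 := fun hh =>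
            h2 _ _ ((lt_iff_hd h (by rw [gt]; exact fun e => nx e.symm)).1 hh)
          have a2 : lt n pos x1 y1 → r x1 y1 := fun hh => ih _ _ (by omega) hh
          have a3 : lt n pos y1 (G (iv l)) → r y1 (G (iv l)) := fun hh =>
            h2 _ _ ((lt_iff_hd h (by rw [gt]; exact ny)).1 hh)
          have hC2 : Cyc r (G (iv l)) x1 y1 := by
            rcases hC with ⟨c1, c2⟩ | ⟨c1, c2⟩ | ⟨c1, c2⟩
            · exact Or.inl ⟨a1 c1, a2 c2⟩
            · exact Or.inr (Or.inl ⟨a2 c1, a3 c2⟩)
            · exact Or.inr (Or.inr ⟨a3 c1, a1 c2⟩)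
          have hC3 := h1 l _ _ _ hC2
          have e1 : G l * G (iv l) = 1 := by
            have := G_iv (iv l)
            rwa [iv_iv] at this
          have e2 : G l * x1 = x := by rw [hx1, ← mul_assoc, e1, one_mul]
          have e3 : G l * y1 = y := by rw [hy1, ← mul_assoc, e1, one_mul]
          rw [e1, e2, e3] at hC3
          have h0 : ∀ z : FreeGroup α, In pos l z → r 1 z := by
            intro z hz
            refine h2 _ _ ?_
            rw [hz, FreeGroup.toWord_one]
            exact h.lo l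
          rcases hC3 with ⟨c1, c2⟩ | ⟨c1, c2⟩ | ⟨c1, c2⟩
          · exact c2
          · exact c1
          · exact absurd c1 (h3 _ _ (h0 y hyl))
  intro x y hl
  exact key _ x y le_rfl hl

end Pool.Agent.N513.PF
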