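import Pool.Agent.N513.PF.Gen

/-!
# Positive factorizations and Higman's lemma
-/

set_option autoImplicit false
set_option linter.unusedSectionVars false
set_option linter.unusedVariables false

namespace Pool.Agent.N513.PF

section order

variable {X : Type*} {r : X → X → Prop}

/-- a permutation that preserves the order -/
def Pres (r : X → X → Prop) (f : X → X) : Prop := ∀ x y, r x y → r (f x) (f y)

/-- a map that moves nothing down -/
def Up (r : X → X → Prop) (f : X → X) : Prop := ∀ x, x = f x ∨ r x (f x)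

end order

section group

variable {K : Type*} [Group K] {r : K → K → Prop}

/-- the positive elements -/
def PosEl (r : K → K → Prop) (t : MulAut K) : Prop := Pres r t ∧ Up r t

lemma pres_mul {s t : MulAut K} (hs : Pres r s) (ht : Pres r t) : Pres r (s * t : MulAut K) :=
  fun x y h => hs _ _ (ht _ _ h)

lemma pres_one : Pres r (1 : MulAut K) := fun x y h => h

lemma pres_inv (tri : ∀ x y, r x y ∨ x = y ∨ r y x) (asy : ∀ x y, r x y → ¬ r y x)
    {t : MulAut K} (ht : Pres r t) : Pres r (t⁻¹ : MulAut K) := by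
  intro x y h
  have e : ∀ z, t (t⁻¹ z) = z := fun z => MulAut.apply_inv_self K t z
  rcases tri (t⁻¹ x) (t⁻¹ y) with h1 | h1 | h1
  · exact h1
  · exfalso
    have h2 : x = y := by rw [← e x, h1, e]
    rw [h2] at h
    exact asy _ _ h h
  · exfalso
    have h2 := ht _ _ h1
    rw [e, e] at h2
    exact asy _ _ h h2

lemma up_mul (tr : ∀ x y z, r x y → r y z → r x z) {s t : MulAut K} (hs : Up r s) (ht : Up r t) :
    Up r (s * t : MulAut K) := by
  intro x
  show x = s (t x) ∨ r x (s (t x))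
  rcases ht x with h | h <;> rcases hs (t x) with h' | h'
  · left; rw [← h', ← h]
  · right; rw [← h] at h' ⊢; exact h'
  · right; rw [← h']; exact h
  · right; exact tr _ _ _ h h'

lemma up_one : Up r (1 : MulAut K) := fun x => Or.inl rfl

lemma up_conj {s t : MulAut K} (hs : Pres r s) (ht : Up r t) :
    Up r (s * t * s⁻¹ : MulAut K) := by
  intro x
  show x = s (t (s⁻¹ x)) ∨ r x (s (t (s⁻¹ x)))
  have e : ∀ z, s (s⁻¹ z) = z := fun z => MulAut.apply_inv_self K s z
  rcases ht (s⁻¹ x) with h | h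
  · left; rw [← h, e]
  · right
    have := hs _ _ h
    rwa [e] at this

/-- a product of elements that move up, all equal at the end -/
lemma sublist_eq (tr : ∀ x y z, r x y → r y z → r x z) (asy : ∀ x y, r x y → ¬ r y x)
    {u w : List (MulAut K)} (h : u.Sublist w) (hw : ∀ t ∈ w, PosEl r t ∧ t ≠ 1) :
    (∀ x, u.prod x = w.prod x ∨ r (u.prod x) (w.prod x)) ∧ (u.prod = w.prod → u = w) := by
  induction h with
  | slnil => exact ⟨fun x => Or.inl rfl, fun _ => rfl⟩
  | cons a h ih =>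
    rename_i l₁ l₂
    obtain ⟨i1, i2⟩ := ih fun t ht => hw t (List.mem_cons_of_mem _ ht)
    obtain ⟨⟨hp, hu⟩, hne⟩ := hw a (List.mem_cons_self)
    have ev : ∀ x, (a :: l₂).prod x = a (l₂.prod x) := fun x => by rw [List.prod_cons]; rfl
    refine ⟨fun x => ?_, fun he => ?_⟩
    · rw [ev]
      rcases i1 x with h1 | h1 <;> rcases hu (l₂.prod x) with h2 | h2
      · left; rw [← h2, h1]
      · right; rw [h1]; exact h2
      · right; rw [← h2]; exact h1
      · right; exact tr _ _ _ h1 h2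
    · exfalso
      apply hne
      ext z
      obtain ⟨x, hx⟩ := l₂.prod.surjective z
      have h3 : l₁.prod x = a (l₂.prod x) := by rw [he, ev]
      show a z = z
      rw [← hx]
      rcases hu (l₂.prod x) with h2 | h2
      · exact h2.symm
      · exfalso
        rcases i1 x with h1 | h1
        · rw [← h3, h1] at h2
          exact asy _ _ h2 h2
        · rw [← h3] at h2
          exact asy _ _ h1 h2
  | cons_cons a h ih =>
    rename_i l₁ l₂
    obtain ⟨i1, i2⟩ := ih fun t ht => hw t (List.mem_cons_of_mem _ ht)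
    obtain ⟨⟨hp, hu⟩, hne⟩ := hw a (List.mem_cons_self)
    have ev : ∀ (l : List (MulAut K)) x, (a :: l).prod x = a (l.prod x) :=
      fun l x => by rw [List.prod_cons]; rfl
    refine ⟨fun x => ?_, fun he => ?_⟩
    · rw [ev, ev]
      rcases i1 x with h1 | h1
      · left; rw [h1]
      · right; exact hp _ _ h1
    · rw [List.prod_cons, List.prod_cons] at he
      rw [i2 (mul_left_cancel he)]

/-- finitely many words -/
theorem finite_words (tr : ∀ x y z, r x y → r y z → r x z) (asy : ∀ x y, r x y → ¬ r y x)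
    {S : Set (MulAut K)} (hS : S.Finite) (hp : ∀ t ∈ S, PosEl r t ∧ t ≠ 1) (z : MulAut K) :
    {w : List (MulAut K) | (∀ t ∈ w, t ∈ S) ∧ w.prod = z}.Finite := by
  by_contra hinf
  have hinf' : {w : List (MulAut K) | (∀ t ∈ w, t ∈ S) ∧ w.prod = z}.Infinite := hinf
  have hpwo := Set.PartiallyWellOrderedOn.partiallyWellOrderedOn_sublistForall₂
    (Eq : MulAut K → MulAut K → Prop) (s := S) hS.partiallyWellOrderedOn
  obtain ⟨m, n, hmn, hr⟩ := hpwo.exists_lt
    (f := fun i => (hinf'.natEmbedding _ i : List (MulAut K)))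
    (fun i => (hinf'.natEmbedding _ i).2.1)
  obtain ⟨l, hl1, hl2⟩ := List.sublistForall₂_iff.1 hr
  rw [List.forall₂_eq_eq_eq] at hl1
  subst hl1
  have h1 := (hinf'.natEmbedding _ m).2.2
  have h2 := (hinf'.natEmbedding _ n).2.2
  have h3 := (sublist_eq tr asy hl2 fun t ht => hp t ((hinf'.natEmbedding _ n).2.1 t ht)).2
    (h1.trans h2.symm)
  have h4 := (hinf'.natEmbedding _).injective (Subtype.ext h3)
  omega

/-- a uniform bound -/
theorem uniform_bound (tr : ∀ x y z, r x y → r y z → r x z) (asy : ∀ x y, r x y → ¬ r y x)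
    (M : Subgroup (MulAut K)) (hM : ∀ φ ∈ M, Pres r φ) (z : MulAut K)
    (hz : ∀ φ ∈ M, φ * z * φ⁻¹ = z) (C : Set (Set (MulAut K))) (hC : C.Finite)
    (hC' : ∀ B ∈ C, B.Finite) :
    ∃ N : ℕ, ∀ A : Set (MulAut K), (∀ t ∈ A, PosEl r t ∧ t ≠ 1) →
      (∃ φ ∈ M, ∃ B ∈ C, ∀ t ∈ A, φ * t * φ⁻¹ ∈ B) →
      ∀ w : List (MulAut K), (∀ t ∈ w, t ∈ A) → w.prod = z → w.length ≤ N := by
  obtain ⟨S, hS⟩ : ∃ S : Set (MulAut K), S = {t | (∃ B ∈ C, t ∈ B) ∧ PosEl r t ∧ t ≠ 1} :=
    ⟨_, rfl⟩
  have hSf : S.Finite := by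
    refine (hC.biUnion hC').subset ?_
    rw [hS]
    rintro t ⟨⟨B, hB, ht⟩, -⟩
    exact Set.mem_biUnion hB ht
  have hfin := finite_words tr asy hSf (fun t ht => by rw [hS] at ht; exact ht.2) z
  obtain ⟨N, hN⟩ := (hfin.image List.length).bddAbove
  refine ⟨N, fun A hA hφ w hw hz' => ?_⟩
  obtain ⟨φ, hφM, B, hB, hAB⟩ := hφ
  have hprod : ∀ l : List (MulAut K),
      (l.map fun t => φ * t * φ⁻¹).prod = φ * l.prod * φ⁻¹ := by
    intro l
    induction l with
    | nil => simp
    | cons a l ih =>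
      rw [List.map_cons, List.prod_cons, ih, List.prod_cons]
      group
  have hmem : (w.map fun t => φ * t * φ⁻¹) ∈
      {w : List (MulAut K) | (∀ t ∈ w, t ∈ S) ∧ w.prod = z} := by
    refine ⟨fun t ht => ?_, ?_⟩
    · obtain ⟨s, hs, rfl⟩ := List.mem_map.1 ht
      rw [hS]
      obtain ⟨⟨hp, hu⟩, hne⟩ := hA s (hw s hs)
      have hφp := hM φ hφM
      have hφp' := hM φ⁻¹ (M.inv_mem hφM)
      refine ⟨⟨B, hB, hAB s (hw s hs)⟩, ⟨pres_mul (pres_mul hφp hp) hφp', up_conj hφp hu⟩, ?_⟩
      intro h1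
      apply hne
      have h2 : s = φ⁻¹ * (φ * s * φ⁻¹) * φ := by group
      rw [h2, h1]
      group
    · rw [hprod, hz', hz φ hφM]
  have h5 : (w.map fun t => φ * t * φ⁻¹).length ≤ N := hN ⟨_, hmem, rfl⟩
  rwa [List.length_map] at h5

end group

end Pool.Agent.N513.PF
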