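import Mathlib

/-!
# The planar order of a free group

A free group with a cyclic arrangement of the letters (a ribbon graph with one vertex and with a base
corner) is linearly ordered by its reduced words: at every vertex of the tree the directions are
compared in the cyclic order, starting from the direction from which the path came.
-/

set_option autoImplicit false
set_option linter.unusedSectionVars false

namespace Pool.Agent.N513.PF

variable {α : Type*} [DecidableEq α]

/-- the inverse letter -/
def iv (l : α × Bool) : α × Bool := (l.1, !l.2)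

@[simp] lemma iv_iv (l : α × Bool) : iv (iv l) = l := by simp [iv]

lemma iv_ne (l : α × Bool) : iv l ≠ l := by
  intro h
  have := congrArg Prod.snd h
  simp [iv] at this

/-- rotation of the positions -/
def key (n p q : ℕ) : ℕ := (q + n - p) % n

/-- the code of a word, read at a vertex where one came from the direction `p` -/
def code (n : ℕ) (pos : α × Bool → ℕ) : ℕ → List (α × Bool) → List ℕ
  | p, [] => [key n p 0]
  | p, l :: w => key n p (pos l) :: code n pos (pos (iv l)) w

/-- the first direction -/
def hd (pos : α × Bool → ℕ) : List (α × Bool) → ℕ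
  | [] => 0
  | l :: _ => pos l

/-- the rest of the code -/
def rest (n : ℕ) (pos : α × Bool → ℕ) : List (α × Bool) → List ℕ
  | [] => []
  | l :: w => code n pos (pos (iv l)) w

/-- an arrangement of the letters -/
structure Arr (n : ℕ) (pos : α × Bool → ℕ) : Prop where
  inj : Function.Injective pos
  lo : ∀ l, 0 < pos l
  hi : ∀ l, pos l < n
  n0 : 0 < n

lemma code_eq (n : ℕ) (pos : α × Bool → ℕ) (p : ℕ) (w : List (α × Bool)) :
    code n pos p w = key n p (hd pos w) :: rest n pos w := by
  cases w <;> rfl

lemma hd_lt {n : ℕ} {pos : α × Bool → ℕ} (h : Arr n pos) (w : List (α × Bool)) :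
    hd pos w < n := by
  cases w
  · exact h.n0
  · exact h.hi _

lemma key_zero {n q : ℕ} (h : q < n) : key n 0 q = q := by
  unfold key
  rw [Nat.sub_zero, Nat.add_mod_right, Nat.mod_eq_of_lt h]

lemma key_val {n p q : ℕ} (hp : p < n) (hq : q < n) :
    key n p q = if p ≤ q then q - p else q + n - p := by
  unfold key
  split_ifs with h
  · have : q + n - p = (q - p) + n := by omega
    rw [this, Nat.add_mod_right, Nat.mod_eq_of_lt (by omega)]
  · rw [Nat.mod_eq_of_lt (by omega)]

/-- the order read at a vertex -/
def ltp (n : ℕ) (pos : α × Bool → ℕ) (p : ℕ) (w w' : List (α × Bool)) : Prop :=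
  code n pos p w < code n pos p w'

lemma ltp_iff {n : ℕ} {pos : α × Bool → ℕ} (h : Arr n pos) {p : ℕ} (hp : p < n)
    (w w' : List (α × Bool)) : ltp n pos p w w' ↔
      key n p (hd pos w) < key n p (hd pos w') ∨
        (hd pos w = hd pos w' ∧ rest n pos w < rest n pos w') := by
  unfold ltp
  rw [code_eq, code_eq, List.cons_lt_cons_iff]
  have e : key n p (hd pos w) = key n p (hd pos w') ↔ hd pos w = hd pos w' := by
    have h1 := hd_lt h w
    have h2 := hd_lt h w'
    rw [key_val hp h1, key_val hp h2]
    split_ifs <;> omega
  rw [e]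

lemma code_inj {n : ℕ} {pos : α × Bool → ℕ} (h : Arr n pos) :
    ∀ (w w' : List (α × Bool)) (p : ℕ), p < n → code n pos p w = code n pos p w' → w = w' := by
  intro w
  induction w with
  | nil =>
    intro w' p hp he
    cases w' with
    | nil => rfl
    | cons l w' =>
      exfalso
      rw [code_eq, code_eq] at he
      have h1 := (List.cons.inj he).1
      have h2 := h.hi l
      have h3 := h.lo l
      have h4 := h.n0
      simp only [hd] at h1
      rw [key_val hp h4, key_val hp h2] at h1
      split_ifs at h1 <;> omega
  | cons l w ih =>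
    intro w' p hp he
    have h2 := h.hi l
    have h3 := h.lo l
    have h4 := h.n0
    cases w' with
    | nil =>
      exfalso
      rw [code_eq, code_eq] at he
      have h1 := (List.cons.inj he).1
      simp only [hd] at h1
      rw [key_val hp h4, key_val hp h2] at h1
      split_ifs at h1 <;> omega
    | cons l' w' =>
      have h2' := h.hi l'
      have h1 := (List.cons.inj he).1
      rw [key_val hp h2', key_val hp h2] at h1
      have h5 : pos l = pos l' := by split_ifs at h1 <;> omega
      have h6 := h.inj h5
      subst h6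
      have h7 := (List.cons.inj he).2
      rw [ih w' _ (h.hi _) h7]

/-- the order of the free group -/
def lt (n : ℕ) (pos : α × Bool → ℕ) (x y : FreeGroup α) : Prop :=
  ltp n pos 0 x.toWord y.toWord

section lin

variable {n : ℕ} {pos : α × Bool → ℕ}

lemma lt_irrefl (x : FreeGroup α) : ¬ lt n pos x x := by
  unfold lt ltp
  exact _root_.lt_irrefl _

lemma lt_trans {x y z : FreeGroup α} (h1 : lt n pos x y) (h2 : lt n pos y z) : lt n pos x z := by
  unfold lt ltp at *
  exact _root_.lt_trans h1 h2

lemma lt_asymm {x y : FreeGroup α} (h1 : lt n pos x y) : ¬ lt n pos y x :=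
  fun h2 => lt_irrefl x (lt_trans h1 h2)

lemma lt_tri (h : Arr n pos) (x y : FreeGroup α) : lt n pos x y ∨ x = y ∨ lt n pos y x := by
  unfold lt ltp
  rcases _root_.lt_trichotomy (code n pos 0 x.toWord) (code n pos 0 y.toWord) with h1 | h1 | h1
  · exact Or.inl h1
  · exact Or.inr (Or.inl (FreeGroup.toWord_injective (code_inj h _ _ 0 h.n0 h1)))
  · exact Or.inr (Or.inr h1)

lemma lt_iff (h : Arr n pos) (x y : FreeGroup α) : lt n pos x y ↔
    hd pos x.toWord < hd pos y.toWord ∨
      (hd pos x.toWord = hd pos y.toWord ∧ rest n pos x.toWord < rest n pos y.toWord) := by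
  unfold lt
  rw [ltp_iff h h.n0, key_zero (hd_lt h _), key_zero (hd_lt h _)]

lemma lt_of_hd (h : Arr n pos) {x y : FreeGroup α} (h1 : hd pos x.toWord < hd pos y.toWord) :
    lt n pos x y := (lt_iff h x y).2 (Or.inl h1)

lemma lt_iff_hd (h : Arr n pos) {x y : FreeGroup α} (h1 : hd pos x.toWord ≠ hd pos y.toWord) :
    lt n pos x y ↔ hd pos x.toWord < hd pos y.toWord := by
  rw [lt_iff h]
  constructor
  · rintro (h2 | h2)
    · exact h2
    · exact absurd h2.1 h1
  · exact Or.inl

end lin

/-! ### The cyclic order -/

/-- the cyclic order of a relation -/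
def Cyc {β : Type*} (r : β → β → Prop) (x y z : β) : Prop :=
  (r x y ∧ r y z) ∨ (r y z ∧ r z x) ∨ (r z x ∧ r x y)

lemma Cyc.rot {β : Type*} {r : β → β → Prop} {x y z : β} (h : Cyc r x y z) : Cyc r y z x := by
  unfold Cyc at *
  tauto

lemma cyc_rot {β : Type*} {r : β → β → Prop} {x y z : β} : Cyc r x y z ↔ Cyc r y z x :=
  ⟨Cyc.rot, fun h => h.rot.rot⟩

/-- a part of a reduced word is reduced -/
lemma red_sub {s w : List (α × Bool)} (h : FreeGroup.IsReduced s)
    (hw : ∃ u v, u ++ w ++ v = s) : FreeGroup.IsReduced w := by
  obtain ⟨u, v, rfl⟩ := hw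
  exact (List.IsChain.left_of_append h).right_of_append

/-- multiplication by a letter without cancellation -/
lemma tw_cons {l : α × Bool} {z : FreeGroup α} (h : ∀ s, z.toWord ≠ iv l :: s) :
    (FreeGroup.mk [l] * z).toWord = l :: z.toWord := by
  have e : FreeGroup.mk [l] * z = FreeGroup.mk (l :: z.toWord) := by
    conv_lhs => rw [← FreeGroup.mk_toWord (x := z)]
    rw [FreeGroup.mul_mk]
    rfl
  rw [e, FreeGroup.toWord_mk]
  have hr : FreeGroup.IsReduced (l :: z.toWord) := by
    cases hz : z.toWord with
    | nil => exact FreeGroup.IsReduced.singleton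
    | cons a s =>
      rw [FreeGroup.isReduced_cons_cons]
      refine ⟨?_, ?_⟩
      · intro h1
        by_contra h2
        apply h s
        rw [hz]
        congr 1
        refine Prod.ext h1.symm ?_
        show a.2 = !l.2
        revert h2
        cases a.2 <;> cases l.2 <;> simp
      · rw [← hz]
        exact FreeGroup.isReduced_toWord
  exact hr.reduce_eq

/-- multiplication by a letter with cancellation -/
lemma tw_cancel {l : α × Bool} {z : FreeGroup α} {s : List (α × Bool)} (h : z.toWord = iv l :: s) :
    (FreeGroup.mk [l] * z).toWord = s := by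
  have e : FreeGroup.mk [l] * z = FreeGroup.mk s := by
    conv_lhs => rw [← FreeGroup.mk_toWord (x := z), h]
    rw [FreeGroup.mul_mk]
    apply Quot.sound
    exact FreeGroup.Red.Step.cons_not (x := l.1) (b := l.2)
  have hr : FreeGroup.IsReduced s := by
    have h1 : FreeGroup.IsReduced z.toWord := FreeGroup.isReduced_toWord
    rw [h] at h1
    exact red_sub h1 ⟨[iv l], [], by simp⟩
  rw [e, FreeGroup.toWord_mk, hr.reduce_eq]

end Pool.Agent.N513.PF
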