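import Pool.Agent.N513.PF.Tau

/-!
# A cyclic order with the right successor and the right Euler number is the planar one
-/

set_option autoImplicit false
set_option linter.unusedSectionVars false
set_option linter.unusedVariables false

namespace Pool.Agent.N513.PF

variable {α : Type*} [DecidableEq α] {n : ℕ} {p : α × Bool → ℕ}

lemma Bd.unique {q : ℕ} {s t : List (α × Bool)} (h : Arr n p) (hs : Bd n p q s)
    (ht : Bd n p q t) : s = t := by
  induction s generalizing q t with
  | nil =>
    cases t with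
    | nil => rfl
    | cons m t =>
      have h1 : q + 1 = n := hs
      have h2 := ht.1
      have h3 := h.hi m
      omega
  | cons l s ih =>
    cases t with
    | nil =>
      have h1 : q + 1 = n := ht
      have h2 := hs.1
      have h3 := h.hi l
      omega
    | cons m t =>
      have h1 : l = m := h.inj (by rw [hs.1, ht.1])
      subst h1
      rw [ih hs.2 ht.2]

lemma Bd.red {q : ℕ} {s : List (α × Bool)} (hs : Bd n p q s) : FreeGroup.IsReduced s := by
  induction s generalizing q with
  | nil => exact FreeGroup.IsReduced.nil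
  | cons l s ih =>
    cases s with
    | nil => exact FreeGroup.IsReduced.singleton
    | cons m s =>
      rw [FreeGroup.isReduced_cons_cons]
      refine ⟨fun h1 => ?_, ih hs.2⟩
      by_contra h2
      have h3 : m = iv l := by
        refine Prod.ext h1.symm ?_
        show m.2 = !l.2
        revert h2
        cases m.2 <;> cases l.2 <;> simp
      have h4 := hs.2.1
      rw [h3] at h4
      omega

lemma mk_word {s : List (α × Bool)} (hs : FreeGroup.IsReduced s) : (FreeGroup.mk s).toWord = s := by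
  rw [FreeGroup.toWord_mk, hs.reduce_eq]

lemma mk_ne_one {s : List (α × Bool)} (hs : FreeGroup.IsReduced s) (h : s ≠ []) :
    FreeGroup.mk s ≠ 1 := by
  intro h1
  apply h
  rw [← mk_word hs, h1, FreeGroup.toWord_one]

lemma mk_cons (l : α × Bool) (s : List (α × Bool)) :
    FreeGroup.mk (l :: s) = G l * FreeGroup.mk s := by
  unfold G
  rw [FreeGroup.mul_mk]
  rfl

lemma mk_app (s t : List (α × Bool)) :
    FreeGroup.mk (s ++ t) = FreeGroup.mk s * FreeGroup.mk t := by
  rw [FreeGroup.mul_mk]

lemma G_ne_one (a : α × Bool) : (G a : FreeGroup α) ≠ 1 :=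
  mk_ne_one FreeGroup.IsReduced.singleton (List.cons_ne_nil _ _)

lemma G_mul_iv (a : α × Bool) : (G a : FreeGroup α) * G (iv a) = 1 := by
  have := G_iv (iv a)
  rwa [iv_iv] at this

theorem pingpong (h : Arr n p) (zl : List (α × Bool)) (hb : Bd n p 0 zl) (hall : ∀ a, a ∈ zl)
    (r : FreeGroup α → FreeGroup α → Prop) (ir : ∀ x, ¬ r x x)
    (tr : ∀ x y z, r x y → r y z → r x z) (tri : ∀ x y, r x y ∨ x = y ∨ r y x)
    (one : ∀ x, x ≠ 1 → r 1 x)
    (cy : ∀ u x y z, Cyc r x y z → Cyc r (u * x) (u * y) (u * z))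
    (mn : ∀ x, x ≠ 1 → x ≠ FreeGroup.mk zl → r (FreeGroup.mk zl) x)
    (ds : ∀ P a Q, P ≠ [] → zl = P ++ a :: Q → r (FreeGroup.mk P * G a) (FreeGroup.mk P)) :
    ∀ x y : FreeGroup α, hd p x.toWord < hd p y.toWord → r x y := by
  have asy : ∀ x y, r x y → ¬ r y x := fun x y h1 h2 => ir _ (tr _ _ _ h1 h2)
  have no1 : ∀ x, ¬ r x 1 := by
    intro x hx
    by_cases h1 : x = 1
    · rw [h1] at hx; exact ir _ hx
    · exact asy _ _ hx (one x h1)
  have hred := hb.red
  -- the suffixes
  have hex : ∀ a, ∃ PQ : List (α × Bool) × List (α × Bool), zl = PQ.1 ++ a :: PQ.2 := fun a => by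
    obtain ⟨P, Q, hPQ⟩ := List.append_of_mem (hall a)
    exact ⟨(P, Q), hPQ⟩
  choose f hf using hex
  obtain ⟨Q, hQ⟩ : ∃ Q : α × Bool → List (α × Bool), Q = fun a => (f a).2 := ⟨_, rfl⟩
  obtain ⟨P, hP⟩ : ∃ P : α × Bool → List (α × Bool), P = fun a => (f a).1 := ⟨_, rfl⟩
  have hz : ∀ a, zl = P a ++ a :: Q a := fun a => by rw [hQ, hP]; exact hf a
  have hBQ : ∀ a, Bd n p (p (iv a)) (Q a) := fun a => by
    have := hb
    rw [hz a] at this
    exact this.append.1
  have hPnil : ∀ a, P a = [] → p a = 1 := fun a ha => by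
    have := hb
    rw [hz a] at this
    exact this.append.2.1 ha
  have hQu : ∀ (a : α × Bool) (S T : List (α × Bool)), zl = S ++ a :: T → T = Q a := by
    intro a S T hST
    have := hb
    rw [hST] at this
    exact Bd.unique h this.append.1 (hBQ a)
  obtain ⟨ζ, hζ⟩ : ∃ ζ, ζ = FreeGroup.mk zl := ⟨_, rfl⟩
  obtain ⟨q, hq⟩ : ∃ q : α × Bool → FreeGroup α, q = fun a => FreeGroup.mk (Q a) := ⟨_, rfl⟩
  obtain ⟨v, hv⟩ : ∃ v : α × Bool → FreeGroup α, v = fun a => FreeGroup.mk (P a) := ⟨_, rfl⟩
  obtain ⟨L, hL⟩ : ∃ L : α × Bool → FreeGroup α, L = fun a => G a * q a := ⟨_, rfl⟩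
  obtain ⟨U, hU⟩ : ∃ U : α × Bool → FreeGroup α, U = fun a => q (iv a) * ζ⁻¹ := ⟨_, rfl⟩
  rw [← hζ] at mn
  have zv : ∀ a, v a * L a = ζ := fun a => by
    rw [hζ, hz a, mk_app, mk_cons, hL, hv, hq]
  have vL : ∀ a, (v a)⁻¹ = L a * ζ⁻¹ := fun a => by rw [← zv a]; group
  have succ : ∀ u x, x ≠ u → x ≠ u * ζ → Cyc r u (u * ζ) x := by
    intro u x h1 h2
    by_cases hz1 : ζ = 1
    · exfalso
      rw [hζ] at hz1
      have h3 : zl ≠ [] := by
        intro h4
        by_cases hx : Nonempty (α × Bool)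
        · obtain ⟨a⟩ := hx
          have := hall a
          rw [h4] at this
          exact absurd this (by simp)
        · apply h1
          have h5 : ∀ z : FreeGroup α, z = 1 := by
            intro z
            cases hz5 : z.toWord with
            | nil => exact FreeGroup.toWord_eq_nil_iff.1 hz5
            | cons l s => exact absurd ⟨l⟩ hx
          rw [h5 x, h5 u]
      exact mk_ne_one hred h3 hz1
    · have h3 : u⁻¹ * x ≠ 1 := fun h4 => h1 (by rw [← mul_one u, ← h4]; group)
      have h4 : u⁻¹ * x ≠ ζ := fun h5 => h2 (by rw [← h5]; group)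
      have h5 : Cyc r 1 ζ (u⁻¹ * x) := Or.inl ⟨one _ hz1, mn _ h3 h4⟩
      have h6 := cy u _ _ _ h5
      rw [mul_one, mul_inv_cancel_left] at h6
      exact h6
  have Lne : ∀ a, L a ≠ 1 := fun a => by
    have e : L a = FreeGroup.mk (a :: Q a) := by rw [mk_cons, hL, hq]
    rw [e]
    refine mk_ne_one (red_sub hred ⟨P a, [], ?_⟩) (List.cons_ne_nil _ _)
    rw [List.append_nil]
    exact (hz a).symm
  have vGne : ∀ a, v a * G a ≠ 1 := fun a => by
    have e : v a * G a = FreeGroup.mk (P a ++ [a]) := by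
      rw [mk_app, hv]
      rfl
    rw [e]
    refine mk_ne_one (red_sub hred ⟨[], Q a, ?_⟩) (by simp)
    rw [List.nil_append, List.append_assoc]
    exact (hz a).symm
  have Uv : ∀ a, U a = G a * (v (iv a))⁻¹ := fun a => by
    rw [vL, hU, hL]
    show q (iv a) * ζ⁻¹ = G a * (G (iv a) * q (iv a) * ζ⁻¹)
    rw [← mul_assoc, ← mul_assoc, G_mul_iv, one_mul]
  have Une : ∀ a, U a ≠ 1 := fun a h1 => by
    apply vGne (iv a)
    rw [Uv] at h1
    have h2 : G a = v (iv a) := by
      have := congrArg (· * v (iv a)) h1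
      simpa using this
    rw [← h2, G_mul_iv]
  -- descents
  have A' : ∀ a, P a ≠ [] → r (v a)⁻¹ (G a) := by
    intro a ha
    have h1 : r (v a * G a) (v a) := by
      have := ds (P a) a (Q a) ha (hz a)
      rw [hv]
      exact this
    have h2 : Cyc r 1 (v a * G a) (v a) := Or.inl ⟨one _ (vGne a), h1⟩
    have h3 := cy (v a)⁻¹ _ _ _ h2
    rw [mul_one, inv_mul_cancel_left, inv_mul_cancel] at h3
    rcases h3 with ⟨h4, h5⟩ | ⟨h4, h5⟩ | ⟨h4, h5⟩
    · exact h4
    · exact absurd h4 (no1 _)
    · exact h5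
  have vnil : ∀ a, P a = [] → v a = 1 := fun a ha => by
    rw [hv]
    show FreeGroup.mk (P a) = 1
    rw [ha]
    rfl
  have Lnil : ∀ a, P a = [] → L a = ζ := fun a ha => by
    have := zv a
    rwa [vnil a ha, one_mul] at this
  have zmin : ∀ x, x ≠ 1 → ¬ r x ζ := by
    intro x hx h1
    by_cases h2 : x = ζ
    · rw [h2] at h1; exact ir _ h1
    · exact asy _ _ h1 (mn x hx h2)
  have nle : ∀ x y z, ¬ r y x → r y z → r x z := by
    intro x y z h1 h2
    rcases tri x y with h3 | h3 | h3
    · exact tr _ _ _ h3 h2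
    · rw [h3]; exact h2
    · exact absurd h3 h1
  have nle2 : ∀ x y z, r x y → ¬ r z y → r x z := by
    intro x y z h1 h2
    rcases tri y z with h3 | h3 | h3
    · exact tr _ _ _ h1 h3
    · rw [← h3]; exact h1
    · exact absurd h3 h2
  have nle3 : ∀ x y z, ¬ r y x → ¬ r z y → ¬ r z x := by
    intro x y z h1 h2 h3
    exact h2 (nle2 _ _ _ h3 h1)
  have A : ∀ a, ¬ r (G a) (L a) := by
    intro a
    by_cases ha : P a = []
    · rw [Lnil a ha]
      exact zmin _ (G_ne_one a)
    · intro h1
      have h2 := A' a ha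
      have h3 : G a ≠ (v a)⁻¹ := fun h4 => by rw [← h4] at h2; exact ir _ h2
      have e : (v a)⁻¹ * ζ = L a := by rw [vL]; group
      have h4 : G a ≠ (v a)⁻¹ * ζ := fun h5 => by
        rw [e] at h5
        rw [← h5] at h1
        exact ir _ h1
      have h5 := succ (v a)⁻¹ (G a) h3 h4
      rw [e] at h5
      rcases h5 with ⟨h6, h7⟩ | ⟨h6, h7⟩ | ⟨h6, h7⟩
      · exact asy _ _ h7 h1
      · exact asy _ _ h6 h1
      · exact asy _ _ h6 h2
  have B : ∀ a, ¬ r (U a) (G a) := by
    intro a
    by_cases ha : P (iv a) = []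
    · rw [Uv, vnil _ ha, inv_one, mul_one]
      exact ir _
    · have h2 := A' (iv a) ha
      have h3 : (v (iv a))⁻¹ ≠ 1 := by
        intro h4
        apply Une (iv a)
        have h5 : v (iv a) = 1 := inv_eq_one.1 h4
        have h6 := vL (iv a)
        exfalso
        have h7 : FreeGroup.mk (P (iv a)) ≠ 1 := by
          refine mk_ne_one (red_sub hred ⟨[], iv a :: Q (iv a), ?_⟩) ha
          rw [List.nil_append]
          exact (hz (iv a)).symm
        apply h7
        rw [hv] at h5
        exact h5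
      have h4 : Cyc r 1 (v (iv a))⁻¹ (G (iv a)) := Or.inl ⟨one _ h3, h2⟩
      have h5 := cy (G a) _ _ _ h4
      rw [mul_one, G_mul_iv, ← Uv] at h5
      rcases h5 with ⟨h6, h7⟩ | ⟨h6, h7⟩ | ⟨h6, h7⟩
      · exact absurd h7 (no1 _)
      · exact absurd h6 (no1 _)
      · exact asy _ _ h7
  have AB : ∀ a, ¬ r (U a) (L a) := fun a => nle3 _ _ _ (A a) (B a)
  -- the successor of the upper end
  have Uz : ∀ a, U a * ζ = q (iv a) := fun a => by rw [hU]; group
  have Qnil : ∀ a, Q a = [] → p (iv a) + 1 = n := fun a ha => by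
    have := hBQ a
    rw [ha] at this
    exact this
  have Qcons : ∀ a m T, Q a = m :: T → p m = p (iv a) + 1 ∧ q a = L m := by
    intro a m T hT
    have h1 := hBQ a
    rw [hT] at h1
    refine ⟨h1.1, ?_⟩
    have h2 : T = Q m := hQu m (P a ++ [a]) T (by
      conv_lhs => rw [hz a, hT]
      simp)
    rw [hL, hq]
    show FreeGroup.mk (Q a) = G m * FreeGroup.mk (Q m)
    rw [hT, mk_cons, h2]
  have UL : ∀ a, Q (iv a) ≠ [] → r (U a) (q (iv a)) ∧ q (iv a) ≠ 1 := by
    intro a ha
    obtain ⟨m, T, hT⟩ := List.exists_cons_of_ne_nil ha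
    obtain ⟨h1, h2⟩ := Qcons _ m T hT
    have h3 : q (iv a) ≠ 1 := by rw [h2]; exact Lne m
    refine ⟨?_, h3⟩
    have h4 := succ (U a) 1 (Une a).symm (by rw [Uz]; exact h3.symm)
    rw [Uz] at h4
    rcases h4 with ⟨h6, h7⟩ | ⟨h6, h7⟩ | ⟨h6, h7⟩
    · exact h6
    · exact absurd h6 (no1 _)
    · exact h7
  have O : ∀ (k : ℕ) (a b : α × Bool), p a < p b → p b ≤ p a + k → r (U a) (L b) := by
    intro k
    induction k with
    | zero => intro a b h1 h2; omega
    | succ k ih =>
      intro a b h1 h2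
      have h3 := h.hi b
      have h4 : Q (iv a) ≠ [] := fun h5 => by
        have := Qnil _ h5
        rw [iv_iv] at this
        omega
      obtain ⟨m, T, hT⟩ := List.exists_cons_of_ne_nil h4
      obtain ⟨h5, h6⟩ := Qcons _ m T hT
      have h7 := (UL a h4).1
      rw [h6] at h7
      rw [iv_iv] at h5
      by_cases hmb : m = b
      · rw [← hmb]; exact h7
      · have h8 : p m ≠ p b := fun h9 => hmb (h.inj h9)
        have h9 := ih m b (by omega) (by omega)
        exact tr _ _ _ (nle2 _ _ _ h7 (AB m)) h9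
  have O' : ∀ a b : α × Bool, p a < p b → r (U a) (L b) := fun a b hab =>
    O (p b) a b hab (by omega)
  have zmax : ∀ x, ¬ r ζ⁻¹ x := by
    intro x h1
    have h2 : x ≠ 1 := fun h3 => by rw [h3] at h1; exact no1 _ h1
    have h3 : x ≠ ζ⁻¹ := fun h4 => by rw [h4] at h1; exact ir _ h1
    have h4 := succ ζ⁻¹ x h3 (by rw [inv_mul_cancel]; exact h2)
    rw [inv_mul_cancel] at h4
    rcases h4 with ⟨h6, h7⟩ | ⟨h6, h7⟩ | ⟨h6, h7⟩
    · exact no1 _ h6
    · exact asy _ _ h7 h1
    · exact no1 _ h7
  have C : ∀ (w : List (α × Bool)) (x : FreeGroup α) (a : α × Bool), x.toWord = a :: w →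
      ¬ r x (L a) ∧ ¬ r (U a) x := by
    intro w
    induction w with
    | nil =>
      intro x a hx
      have e : x = G a := FreeGroup.toWord_injective (by rw [hx, G_word])
      rw [e]
      exact ⟨A a, B a⟩
    | cons b w ih =>
      intro x a hx
      obtain ⟨x', hx'⟩ : ∃ x', x' = G (iv a) * x := ⟨_, rfl⟩
      have ex : x'.toWord = b :: w := by
        rw [hx']
        exact tw_cancel (by rw [iv_iv]; exact hx)
      have e1 : x = G a * x' := by rw [hx', ← mul_assoc, G_mul_iv, one_mul]
      have hba : b ≠ iv a := red_ne hx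
      obtain ⟨i1, i2⟩ := ih x' b ex
      have x'ne : x' ≠ 1 := fun h1 => by
        rw [h1, FreeGroup.toWord_one] at ex
        exact absurd ex (List.cons_ne_nil _ _).symm
      have xne : x ≠ 1 := fun h1 => by
        rw [h1, FreeGroup.toWord_one] at hx
        exact absurd hx (List.cons_ne_nil _ _).symm
      rcases Nat.lt_or_gt_of_ne (fun h1 => hba (h.inj h1)) with h1 | h1
      · -- below
        have h2 : r x' (L (iv a)) := nle _ _ _ i2 (O' b (iv a) h1)
        have h3 : Cyc r 1 x' (L (iv a)) := Or.inl ⟨one _ x'ne, h2⟩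
        have h4 := cy (G a) _ _ _ h3
        have e2 : G a * L (iv a) = q (iv a) := by
          rw [hL]
          show G a * (G (iv a) * q (iv a)) = q (iv a)
          rw [← mul_assoc, G_mul_iv, one_mul]
        rw [mul_one, e2, ← e1] at h4
        by_cases hQn : Q (iv a) = []
        · have e3 : q (iv a) = 1 := by
            rw [hq]
            show FreeGroup.mk (Q (iv a)) = 1
            rw [hQn]
            rfl
          have e4 : U a = ζ⁻¹ := by
            rw [hU]
            show q (iv a) * ζ⁻¹ = ζ⁻¹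
            rw [e3, one_mul]
          rw [e3] at h4
          have h5 : r (G a) x := by
            rcases h4 with ⟨h6, h7⟩ | ⟨h6, h7⟩ | ⟨h6, h7⟩
            · exact h6
            · exact absurd h6 (no1 _)
            · exact h7
          refine ⟨fun h6 => A a (tr _ _ _ h5 h6), ?_⟩
          rw [e4]
          exact zmax x
        · obtain ⟨h5, h6⟩ := UL a hQn
          have h7 : r (G a) (q (iv a)) := nle _ _ _ (B a) h5
          have h8 : r (G a) x ∧ r x (q (iv a)) := by
            rcases h4 with ⟨h6, h9⟩ | ⟨h6, h9⟩ | ⟨h6, h9⟩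
            · exact ⟨h6, h9⟩
            · exact absurd h9 (asy _ _ h7)
            · exact absurd h6 (asy _ _ h7)
          refine ⟨fun h9 => A a (tr _ _ _ h8.1 h9), fun h9 => ?_⟩
          have h10 := succ (U a) x (fun h11 => by rw [h11] at h9; exact ir _ h9)
            (fun h11 => by
              rw [Uz] at h11
              rw [h11] at h8
              exact ir _ h8.2)
          rw [Uz] at h10
          rcases h10 with ⟨h11, h12⟩ | ⟨h11, h12⟩ | ⟨h11, h12⟩
          · exact asy _ _ h12 h8.2
          · exact asy _ _ h11 h8.2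
          · exact asy _ _ h9 h11
      · -- above
        have h2 : r (U (iv a)) x' := nle2 _ _ _ (O' (iv a) b h1) i1
        have h3 : Cyc r 1 (U (iv a)) x' := Or.inl ⟨one _ (Une _), h2⟩
        have h4 := cy (G a) _ _ _ h3
        have e2 : G a * U (iv a) = (v a)⁻¹ := by
          rw [vL, hU, hL]
          show G a * (q (iv (iv a)) * ζ⁻¹) = G a * q a * ζ⁻¹
          rw [iv_iv, mul_assoc]
        rw [mul_one, e2, ← e1] at h4
        by_cases hPn : P a = []
        · rw [vnil a hPn, inv_one] at h4
          have h5 : r x (G a) := by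
            rcases h4 with ⟨h6, h7⟩ | ⟨h6, h7⟩ | ⟨h6, h7⟩
            · exact absurd h6 (no1 _)
            · exact h7
            · exact h6
          refine ⟨?_, fun h6 => B a (tr _ _ _ h6 h5)⟩
          rw [Lnil a hPn]
          exact zmin x xne
        · have h5 := A' a hPn
          have h6 : r (v a)⁻¹ x ∧ r x (G a) := by
            rcases h4 with ⟨h6, h7⟩ | ⟨h6, h7⟩ | ⟨h6, h7⟩
            · exact absurd h6 (asy _ _ h5)
            · exact ⟨h6, h7⟩
            · exact absurd h7 (asy _ _ h5)
          refine ⟨fun h7 => ?_, fun h7 => B a (tr _ _ _ h7 h6.2)⟩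
          have e : (v a)⁻¹ * ζ = L a := by rw [vL]; group
          have h10 := succ (v a)⁻¹ x (fun h11 => by rw [← h11] at h6; exact ir _ h6.1)
            (fun h11 => by
              rw [e] at h11
              rw [← h11] at h7
              exact ir _ h7)
          rw [e] at h10
          rcases h10 with ⟨h11, h12⟩ | ⟨h11, h12⟩ | ⟨h11, h12⟩
          · exact asy _ _ h12 h7
          · exact asy _ _ h11 h7
          · exact asy _ _ h11 h6.1
  intro x y hxy
  cases hy : y.toWord with
  | nil =>
    rw [hy] at hxy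
    exact absurd hxy (Nat.not_lt_zero _)
  | cons b t =>
    have yne : y ≠ 1 := fun h1 => by
      rw [h1, FreeGroup.toWord_one] at hy
      exact absurd hy (List.cons_ne_nil _ _).symm
    cases hx : x.toWord with
    | nil =>
      rw [FreeGroup.toWord_eq_nil_iff.1 hx]
      exact one y yne
    | cons a s =>
      rw [hx, hy] at hxy
      have h1 := C s x a hx
      have h2 := C t y b hy
      exact nle2 _ _ _ (nle _ _ _ h1.2 (O' a b hxy)) h2.1

end Pool.Agent.N513.PF
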