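import Pool.Agent.N513.PF.Slide

/-!
# The planar order: a slide that returns to the same arrangement moves everything upwards
-/

set_option autoImplicit false
set_option linter.unusedSectionVars false

namespace Pool.Agent.N513.PF

variable {α : Type*} [DecidableEq α]

section rec

variable {ψ : FreeGroup α →* FreeGroup α} {d e : α × Bool}

lemma Slides.wd (h : Slides ψ d e) {u : FreeGroup α} (hu : ∀ s, u.toWord ≠ iv d :: s) :
    (ψ (G d * u)).toWord = e :: d :: (ψ u).toWord := by
  have ih' := h.head _ u rfl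
  have hv : ψ (G d * u) = G e * (G d * ψ u) := by rw [map_mul, h.map, mul_assoc]
  have k1 : (G d * ψ u).toWord = d :: (ψ u).toWord := by
    refine tw_cons fun s1 hs1 => ?_
    rcases ih' with ⟨-, h2⟩ | ⟨s2, t2, h1, h2⟩ | ⟨s2, t2, h1, h2⟩ | ⟨b, s2, t2, h1, h2, h3, h4, h5⟩
    · rw [hs1] at h2
      exact absurd h2 (List.cons_ne_nil _ _)
    · rw [hs1] at h2
      exact h.ne3 (List.cons.inj h2).1
    · rw [hs1] at h2
      exact iv_ne d (List.cons.inj h2).1
    · rw [hs1] at h2
      rw [← (List.cons.inj h2).1] at h1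
      exact hu _ h1
  rw [hv, ← k1]
  refine tw_cons fun s1 hs1 => ?_
  rw [k1] at hs1
  exact h.ne2 (List.cons.inj hs1).1

lemma Slides.wo (h : Slides ψ d e) {u : FreeGroup α} {f : α × Bool} (hf : f.1 ≠ d.1)
    (hu : ∀ s, u.toWord ≠ iv f :: s) (hx : f = iv e → ∀ s, u.toWord ≠ d :: s) :
    (ψ (G f * u)).toWord = f :: (ψ u).toWord := by
  have ih' := h.head _ u rfl
  have hv : ψ (G f * u) = G f * ψ u := by rw [map_mul, h.fix f hf]
  rw [hv]
  have a2 : iv f ≠ d := ne_fst (a := iv f) hf
  refine tw_cons fun s1 hs1 => ?_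
  rcases ih' with ⟨-, h2⟩ | ⟨s2, t2, h1, h2⟩ | ⟨s2, t2, h1, h2⟩ | ⟨b, s2, t2, h1, h2, h3, h4, h5⟩
  · rw [hs1] at h2
    exact absurd h2 (List.cons_ne_nil _ _)
  · rw [hs1] at h2
    have h6 := (List.cons.inj h2).1
    exact hx (by rw [← h6, iv_iv]) _ h1
  · rw [hs1] at h2
    exact a2 (List.cons.inj h2).1
  · rw [hs1] at h2
    rw [← (List.cons.inj h2).1] at h1
    exact hu _ h1

/-- images never start with `e d` unless the word starts with `d` -/
lemma Slides.not_d (h : Slides ψ d e) {u : FreeGroup α} (hu : ∀ s, u.toWord ≠ d :: s) :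
    ∀ s, (G (iv e) * ψ u).toWord ≠ d :: s := by
  have ih' := h.head _ u rfl
  intro s hs
  by_cases hz1 : ∃ t, (ψ u).toWord = e :: t
  · obtain ⟨t, ht⟩ := hz1
    have k1 : (G (iv e) * ψ u).toWord = t := tw_cancel (by rw [iv_iv]; exact ht)
    rw [k1] at hs
    rcases ih' with ⟨-, h2⟩ | ⟨s2, t2, h1, h2⟩ | ⟨s2, t2, h1, h2⟩ | ⟨b, s2, t2, h1, h2, h3, h4, h5⟩
    · rw [ht] at h2
      exact absurd h2 (List.cons_ne_nil _ _)
    · exact hu _ h1
    · rw [ht] at h2
      exact h.ne1 (List.cons.inj h2).1.symm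
    · rw [ht] at h2
      have h6 := List.cons.inj h2
      exact h5 h6.1.symm s (by rw [← h6.2]; exact hs)
  · have k1 : (G (iv e) * ψ u).toWord = iv e :: (ψ u).toWord := by
      refine tw_cons fun s1 hs1 => hz1 ⟨s1, ?_⟩
      rw [hs1, iv_iv]
    rw [k1] at hs
    exact h.ne2 (List.cons.inj hs).1.symm

lemma Slides.wivd (h : Slides ψ d e) {u : FreeGroup α} (hu : ∀ s, u.toWord ≠ d :: s) :
    (ψ (G (iv d) * u)).toWord = iv d :: (G (iv e) * ψ u).toWord := by
  have hv : ψ (G (iv d) * u) = G (iv d) * (G (iv e) * ψ u) := by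
    rw [map_mul, h.map_iv, mul_assoc]
  rw [hv]
  refine tw_cons fun s1 hs1 => ?_
  rw [iv_iv] at hs1
  exact h.not_d hu _ hs1

/-- the image of a word that starts with `iv e` does not start with `e` -/
lemma Slides.not_e (h : Slides ψ d e) {u : FreeGroup α} (hu : ∀ s, u.toWord ≠ d :: s)
    (hu2 : ∀ s, u.toWord ≠ e :: s) : ∀ s, (ψ u).toWord ≠ e :: s := by
  intro s hs
  rcases h.head _ u rfl with ⟨-, h2⟩ | ⟨s2, t2, h1, h2⟩ | ⟨s2, t2, h1, h2⟩ |
    ⟨b, s2, t2, h1, h2, h3, h4, h5⟩
  · rw [hs] at h2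
    exact absurd h2 (List.cons_ne_nil _ _)
  · exact hu _ h1
  · rw [hs] at h2
    exact h.ne1 (List.cons.inj h2).1.symm
  · rw [hs] at h2
    rw [← (List.cons.inj h2).1] at h1
    exact hu2 _ h1

lemma wx {z : FreeGroup α} (h : ∀ s, z.toWord ≠ e :: s) :
    (G (iv e) * z).toWord = iv e :: z.toWord := by
  refine tw_cons fun s hs => h s ?_
  rw [hs, iv_iv]

end rec

variable {n : ℕ} {p : α × Bool → ℕ}

/-- comparison of words read at a vertex -/
def cle (n : ℕ) (p : α × Bool → ℕ) (q : ℕ) (u v : List (α × Bool)) : Prop :=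
  code n p q u = code n p q v ∨ code n p q u < code n p q v

lemma cle_refl (q : ℕ) (u : List (α × Bool)) : cle n p q u u := Or.inl rfl

lemma cle_cons {q : ℕ} {f : α × Bool} {s t : List (α × Bool)} (h : cle n p (p (iv f)) s t) :
    cle n p q (f :: s) (f :: t) := by
  rcases h with h | h
  · left
    show key n q (p f) :: code n p (p (iv f)) s = key n q (p f) :: code n p (p (iv f)) t
    rw [h]
  · right
    show key n q (p f) :: code n p (p (iv f)) s < key n q (p f) :: code n p (p (iv f)) t
    rw [List.cons_lt_cons_iff]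
    exact Or.inr ⟨rfl, h⟩

lemma cle_hd {q : ℕ} {s t : List (α × Bool)} (h : key n q (hd p s) < key n q (hd p t)) :
    cle n p q s t := by
  right
  rw [code_eq n p q s, code_eq n p q t, List.cons_lt_cons_iff]
  exact Or.inl h

section main

variable {ψ : FreeGroup α →* FreeGroup α} {d e : α × Bool}

lemma key1 (h : Arr n p) (h1 : p d = p (iv e) + 1) (h2 : p e = p (iv e) + 2) {r : ℕ}
    (hr : r < n) (hr1 : r ≠ p (iv e)) :
    key n (p d) r < key n (p d) (p (iv e)) := by
  have a1 := h.hi e
  rw [key_val (h.hi _) hr, key_val (h.hi _) (h.hi _)]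
  split_ifs <;> omega

lemma key2 (h : Arr n p) (h1 : p d = p (iv e) + 1) (h2 : p e = p (iv e) + 2) {r : ℕ}
    (hr : r < n) (hr1 : r ≠ p (iv e)) (hr2 : r ≠ p d) :
    key n (p e) r < key n (p e) (p (iv e)) := by
  have a1 := h.hi e
  rw [key_val (h.hi _) hr, key_val (h.hi _) (h.hi _)]
  split_ifs <;> omega

lemma key3 (h : Arr n p) (h1 : p d = p (iv e) + 1) (h2 : p e = p (iv e) + 2) {r : ℕ}
    (hr : r < n) (hr1 : r ≠ p e) (hr2 : r ≠ p d) :
    key n (p d) (p e) < key n (p d) r := by
  have a1 := h.hi e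
  rw [key_val (h.hi _) hr, key_val (h.hi _) (h.hi _)]
  split_ifs <;> omega

lemma key4 (h : Arr n p) (h1 : p d = p (iv e) + 1) (h2 : p e = p (iv e) + 2) {r : ℕ}
    (hr : r < n) (hr1 : r ≠ p e) (hr2 : r ≠ p d) (hr3 : r ≠ p (iv e)) :
    key n (p (iv e)) (p e) < key n (p (iv e)) r := by
  have a1 := h.hi e
  rw [key_val (h.hi _) hr, key_val (h.hi _) (h.hi _)]
  split_ifs <;> omega

lemma key5 (h : Arr n p) (h1 : p d = p (iv e) + 1) (h2 : p e = p (iv e) + 2) {q : ℕ}
    (hq : q < n) (hq1 : q ≠ p d) (hq2 : q ≠ p e) :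
    key n q (p d) < key n q (p e) := by
  have a1 := h.hi e
  have a2 := h.hi d
  rw [key_val hq (h.hi _), key_val hq (h.hi _)]
  split_ifs <;> omega

lemma key6 (h : Arr n p) (h1 : p d = p (iv e) + 1) (h2 : p e = p (iv e) + 2) {q : ℕ}
    (hq : q < n) (hq1 : q ≠ p d) (hq2 : q ≠ p (iv e)) :
    key n q (p (iv e)) < key n q (p d) := by
  have a1 := h.hi e
  have a2 := h.hi d
  rw [key_val hq (h.hi _), key_val hq (h.hi _)]
  split_ifs <;> omega

theorem pos_main (h : Arr n p) (hs : Slides ψ d e) (h1 : p d = p (iv e) + 1)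
    (h2 : p e = p (iv e) + 2) : ∀ (w : List (α × Bool)) (u : FreeGroup α), u.toWord = w →
    (∀ q, (q = 0 ∨ ∃ l, q = p l ∧ l ≠ d ∧ (∀ s, w ≠ l :: s) ∧ (l = e → ∀ s, w ≠ d :: s)) →
      cle n p q w (ψ u).toWord) ∧
    ((∀ s, w ≠ d :: s) → cle n p (p d) w (G (iv e) * ψ u).toWord) ∧
    ((∀ s, w ≠ e :: s) → cle n p (p e) w (G (iv e) * ψ u).toWord) ∧
    ((∀ s, w ≠ iv e :: s) → cle n p (p (iv e)) (e :: w) (ψ u).toWord ∧
      cle n p (p d) (e :: w) (ψ u).toWord) := by
  have n1 := hs.ne1
  have n2 := hs.ne2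
  have n3 := hs.ne3
  have n4 := hs.ne4
  have n5 := iv_ne d
  have n6 := iv_ne e
  have hlt := fun l => h.hi l
  have hlo := fun l => h.lo l
  have inj : ∀ {a b : α × Bool}, a ≠ b → p a ≠ p b := fun hab hp => hab (h.inj hp)
  intro w
  induction w with
  | nil =>
    intro u hu
    have h3 : u = 1 := FreeGroup.toWord_eq_nil_iff.1 hu
    subst h3
    rw [map_one, mul_one]
    have h4 : (G (iv e) : FreeGroup α).toWord = [iv e] := by
      unfold G
      rw [FreeGroup.toWord_mk]
      exact FreeGroup.IsReduced.singleton.reduce_eq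
    rw [h4, FreeGroup.toWord_one]
    refine ⟨fun q _ => cle_refl _ _, fun _ => cle_hd ?_, fun _ => cle_hd ?_,
      fun _ => ⟨cle_hd ?_, cle_hd ?_⟩⟩
    · exact key1 h h1 h2 h.n0 (hlo _).ne
    · exact key2 h h1 h2 h.n0 (hlo _).ne (hlo _).ne
    · exact key4 h h1 h2 h.n0 (hlo _).ne (hlo _).ne (hlo _).ne
    · exact key3 h h1 h2 h.n0 (hlo _).ne (hlo _).ne
  | cons f s ih =>
    intro u hu
    obtain ⟨u', hu'⟩ : ∃ u', u' = G (iv f) * u := ⟨_, rfl⟩
    have ex : u'.toWord = s := by
      rw [hu']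
      exact tw_cancel (by rw [iv_iv]; exact hu)
    have e1 : u = G f * u' := by
      have := G_iv_mul (iv f) u
      rw [iv_iv] at this
      rw [hu', this]
    have hred : ∀ s', s ≠ iv f :: s' := fun s' hb => by
      rw [hb] at hu
      exact red_ne hu rfl
    obtain ⟨iQ, iPd, iPe, iR⟩ := ih u' ex
    rcases letter_cases d f with rfl | rfl | hf
    · -- f = d
      have k1 := hs.wd (u := u') (by rw [ex]; exact hred)
      rw [← e1] at k1
      have hQ : cle n p (p (iv f)) s (ψ u').toWord :=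
        iQ _ (Or.inr ⟨iv f, rfl, n5, hred, fun h6 => absurd h6 n3⟩)
      refine ⟨fun q hq => ?_, fun h3 => absurd rfl (h3 s), fun h3 => ?_, fun h3 => ⟨?_, ?_⟩⟩
      · rw [k1]
        refine cle_hd (key5 h h1 h2 ?_ ?_ ?_)
        · rcases hq with rfl | ⟨l, rfl, -⟩
          · exact h.n0
          · exact hlt l
        · rcases hq with rfl | ⟨l, rfl, h5, -⟩
          · exact (hlo _).ne
          · exact inj h5
        · rcases hq with rfl | ⟨l, rfl, h5, h6, h7⟩
          · exact (hlo _).ne
          · exact inj fun h8 => h7 h8 s rfl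
      · have k2 : (G (iv e) * ψ u).toWord = f :: (ψ u').toWord := tw_cancel (by rw [iv_iv, k1])
        rw [k2]
        exact cle_cons hQ
      · rw [k1]
        exact cle_cons (cle_cons hQ)
      · rw [k1]
        exact cle_cons (cle_cons hQ)
    · -- f = iv d
      rw [iv_iv] at hred
      have k1 := hs.wivd (u := u') (by rw [ex]; exact hred)
      rw [← e1] at k1
      have k2 : (G (iv e) * ψ u).toWord = iv e :: (ψ u).toWord := by
        refine wx fun s1 hs1 => ?_
        rw [k1] at hs1
        exact n3 (List.cons.inj hs1).1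
      refine ⟨fun q hq => ?_, fun h3 => ?_, fun h3 => ?_, fun h3 => ⟨?_, ?_⟩⟩
      · rw [k1]
        refine cle_cons ?_
        rw [iv_iv]
        exact iPd hred
      · rw [k2]
        exact cle_hd (key1 h h1 h2 (hlt _) (inj n4))
      · rw [k2]
        exact cle_hd (key2 h h1 h2 (hlt _) (inj n4) (inj n5))
      · rw [k1]
        exact cle_hd (key4 h h1 h2 (hlt _) (inj n3) (inj n5) (inj n4))
      · rw [k1]
        exact cle_hd (key3 h h1 h2 (hlt _) (inj n3) (inj n5))
    · by_cases hfx : f = iv e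
      · -- f = iv e
        subst hfx
        rw [iv_iv] at hred
        have hPe := iPe hred
        have e2 : ψ u = G (iv e) * ψ u' := by rw [e1, map_mul, hs.fix _ hf]
        have hne : ∀ s, (ψ u).toWord ≠ e :: s := by
          refine hs.not_e ?_ ?_
          · intro s1 h3
            rw [hu] at h3
            exact n2 (List.cons.inj h3).1.symm
          · intro s1 h3
            rw [hu] at h3
            exact n6 (List.cons.inj h3).1
        have k2 := wx hne
        refine ⟨fun q hq => ?_, fun h3 => ?_, fun h3 => ?_, fun h3 => absurd rfl (h3 s)⟩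
        · by_cases hc : ∃ s', s = d :: s'
          · obtain ⟨s', rfl⟩ := hc
            have k3 : ∃ t, (ψ u).toWord = d :: t := by
              rcases hs.head _ u hu with ⟨h3, -⟩ | ⟨s2, t2, h3, h4⟩ | ⟨s2, t2, h3, h4⟩ |
                ⟨b, s2, t2, h3, h4, h5, h6, h7⟩
              · exact absurd h3 (List.cons_ne_nil _ _)
              · exact absurd (List.cons.inj h3).1 n2.symm
              · exact ⟨_, h4⟩
              · have h8 := List.cons.inj h3
                exact absurd h8.2.symm (h6 h8.1.symm s')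
            obtain ⟨t, ht⟩ := k3
            rw [ht]
            refine cle_hd (key6 h h1 h2 ?_ ?_ ?_)
            · rcases hq with rfl | ⟨l, rfl, -⟩
              · exact h.n0
              · exact hlt l
            · rcases hq with rfl | ⟨l, rfl, h5, -⟩
              · exact (hlo _).ne
              · exact inj h5
            · rcases hq with rfl | ⟨l, rfl, h5, h6, -⟩
              · exact (hlo _).ne
              · exact inj fun h8 => h6 (d :: s') (by rw [h8])
          · have k1 := hs.wo (u := u') hf (by rw [ex, iv_iv]; exact hred)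
              (fun _ s1 h3 => hc ⟨s1, by rw [← h3, ex]⟩)
            rw [← e1] at k1
            rw [k1]
            refine cle_cons ?_
            rw [iv_iv]
            exact iQ _ (Or.inr ⟨e, rfl, n1.symm, hred, fun _ s1 h3 => hc ⟨s1, h3⟩⟩)
        · rw [k2, e2]
          refine cle_cons ?_
          rw [iv_iv]
          exact hPe
        · rw [k2, e2]
          refine cle_cons ?_
          rw [iv_iv]
          exact hPe
      · have k1 := hs.wo (u := u') hf (by rw [ex]; exact hred) (fun h3 => absurd h3 hfx)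
        rw [← e1] at k1
        have hfd : f ≠ d := ne_fst hf
        have hfd2 : iv f ≠ d := ne_fst (a := iv f) hf
        have hfe : iv f ≠ e := fun h3 => hfx (by rw [← h3, iv_iv])
        have hQ : cle n p (p (iv f)) s (ψ u').toWord :=
          iQ _ (Or.inr ⟨iv f, rfl, hfd2, hred, fun h6 => absurd h6 hfe⟩)
        by_cases hfe2 : f = e
        · subst hfe2
          refine ⟨fun q hq => ?_, fun h3 => ?_, fun h3 => absurd rfl (h3 s), fun h3 => ⟨?_, ?_⟩⟩
          · rw [k1]
            exact cle_cons hQ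
          · have k2 : (G (iv f) * ψ u).toWord = (ψ u').toWord := tw_cancel (by rw [iv_iv, k1])
            rw [k2]
            exact (iR hred).2
          · rw [k1]
            exact cle_cons (iR hred).1
          · rw [k1]
            exact cle_cons (iR hred).1
        · have k2 : (G (iv e) * ψ u).toWord = iv e :: (ψ u).toWord := by
            refine wx fun s1 hs1 => ?_
            rw [k1] at hs1
            exact hfe2 (List.cons.inj hs1).1
          refine ⟨fun q hq => ?_, fun h3 => ?_, fun h3 => ?_, fun h3 => ⟨?_, ?_⟩⟩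
          · rw [k1]
            exact cle_cons hQ
          · rw [k2]
            exact cle_hd (key1 h h1 h2 (hlt _) (inj hfx))
          · rw [k2]
            exact cle_hd (key2 h h1 h2 (hlt _) (inj hfx) (inj hfd))
          · rw [k1]
            exact cle_hd (key4 h h1 h2 (hlt _) (inj hfe2) (inj hfd) (inj hfx))
          · rw [k1]
            exact cle_hd (key3 h h1 h2 (hlt _) (inj hfe2) (inj hfd))

/-- such a slide moves everything upwards -/
theorem slide_up (h : Arr n p) (hs : Slides ψ d e) (h1 : p d = p (iv e) + 1)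
    (h2 : p e = p (iv e) + 2) (u : FreeGroup α) : u = ψ u ∨ lt n p u (ψ u) := by
  rcases (pos_main h hs h1 h2 _ u rfl).1 0 (Or.inl rfl) with h3 | h3
  · exact Or.inl (FreeGroup.toWord_injective (code_inj h _ _ 0 h.n0 h3))
  · exact Or.inr h3

end main

end Pool.Agent.N513.PF
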