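import Pool.Agent.N513.PF.Inv

/-!
# The planar order: slides
-/

set_option autoImplicit false
set_option linter.unusedSectionVars false

namespace Pool.Agent.N513.PF

variable {α : Type*} [DecidableEq α]

/-- the slide of the letter `d` over the letter `e` -/
structure Slides (ψ : FreeGroup α →* FreeGroup α) (d e : α × Bool) : Prop where
  ne : d.1 ≠ e.1
  map : ψ (G d) = G e * G d
  fix : ∀ f : α × Bool, f.1 ≠ d.1 → ψ (G f) = G f

/-- the words and the words of their images -/
def HH (d e : α × Bool) (w v : List (α × Bool)) : Prop :=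
  (w = [] ∧ v = []) ∨
  (∃ s t, w = d :: s ∧ v = e :: d :: t) ∨
  (∃ s t, w = iv e :: d :: s ∧ v = d :: t) ∨
  (∃ b s t, w = b :: s ∧ v = b :: t ∧ b ≠ d ∧ (b = iv e → ∀ s', s ≠ d :: s') ∧
    (b = e → ∀ t', t ≠ d :: t'))

lemma iv_inj {a b : α × Bool} (h : iv a = iv b) : a = b := by
  rw [← iv_iv a, ← iv_iv b, h]

lemma letter_cases (d f : α × Bool) : f = d ∨ f = iv d ∨ f.1 ≠ d.1 := by
  by_cases h : f.1 = d.1
  · by_cases h2 : f.2 = d.2
    · exact Or.inl (Prod.ext h h2)
    · right; left
      refine Prod.ext h ?_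
      show f.2 = !d.2
      revert h2
      cases f.2 <;> cases d.2 <;> simp
  · exact Or.inr (Or.inr h)

lemma red_ne {x : FreeGroup α} {a b : α × Bool} {s : List (α × Bool)}
    (h : x.toWord = a :: b :: s) : b ≠ iv a := by
  rintro rfl
  have h2 : x.toWord = iv (iv a) :: (iv a) :: s := by rw [iv_iv]; exact h
  exact not_both (s' := s) h2

lemma ne_fst {a b : α × Bool} (h : a.1 ≠ b.1) : a ≠ b := fun h1 => h (congrArg Prod.fst h1)

section

variable {ψ : FreeGroup α →* FreeGroup α} {d e : α × Bool}

lemma Slides.map_iv (h : Slides ψ d e) : ψ (G (iv d)) = G (iv d) * G (iv e) := by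
  rw [G_inv, map_inv, h.map, mul_inv_rev, G_inv]

lemma Slides.ne1 (h : Slides ψ d e) : d ≠ e := ne_fst h.ne
lemma Slides.ne2 (h : Slides ψ d e) : d ≠ iv e := ne_fst (b := iv e) h.ne
lemma Slides.ne3 (h : Slides ψ d e) : iv d ≠ e := ne_fst (a := iv d) h.ne
lemma Slides.ne4 (h : Slides ψ d e) : iv d ≠ iv e := ne_fst (a := iv d) (b := iv e) h.ne

theorem Slides.head (h : Slides ψ d e) :
    ∀ (w : List (α × Bool)) (x : FreeGroup α), x.toWord = w → HH d e w (ψ x).toWord := by
  intro w
  induction w with
  | nil =>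
    intro x hx
    have h1 : x = 1 := FreeGroup.toWord_eq_nil_iff.1 hx
    rw [h1, map_one, FreeGroup.toWord_one]
    exact Or.inl ⟨rfl, rfl⟩
  | cons a s ih =>
    intro x hx
    obtain ⟨x', hx'⟩ : ∃ x', x' = G (iv a) * x := ⟨_, rfl⟩
    have ex : x'.toWord = s := by
      rw [hx']
      exact tw_cancel (by rw [iv_iv]; exact hx)
    have e1 : x = G a * x' := by
      have := G_iv_mul (iv a) x
      rw [iv_iv] at this
      rw [hx', this]
    have ih' := ih x' ex
    have hred : ∀ b s', s = b :: s' → b ≠ iv a := fun b s' hb => by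
      rw [hb] at hx
      exact red_ne hx
    have hv : ψ x = ψ (G a) * ψ x' := by rw [← map_mul, ← e1]
    obtain ⟨z, hz⟩ : ∃ z, z = ψ x' := ⟨_, rfl⟩
    rw [← hz] at ih' hv
    have n1 := h.ne1
    have n2 := h.ne2
    have n3 := h.ne3
    have n4 := h.ne4
    have n5 := iv_ne d
    have n6 := iv_ne e
    rcases letter_cases d a with rfl | rfl | ha
    · -- a = d
      rw [h.map, mul_assoc] at hv
      have k1 : (G a * z).toWord = a :: z.toWord := by
        refine tw_cons fun s1 hs1 => ?_
        rcases ih' with ⟨-, h2⟩ | ⟨s2, t2, h1, h2⟩ | ⟨s2, t2, h1, h2⟩ | ⟨b, s2, t2, h1, h2, h3, h4, h5⟩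
        · rw [hs1] at h2
          exact absurd h2 (List.cons_ne_nil _ _)
        · rw [hs1] at h2
          exact n3 (List.cons.inj h2).1
        · rw [hs1] at h2
          exact n5 (List.cons.inj h2).1
        · rw [hs1] at h2
          exact hred _ _ h1 (List.cons.inj h2).1.symm
      have k2 : (G e * (G a * z)).toWord = e :: a :: z.toWord := by
        rw [← k1]
        refine tw_cons fun s1 hs1 => ?_
        rw [k1] at hs1
        exact n2 (List.cons.inj hs1).1
      rw [hv, k2]
      exact Or.inr (Or.inl ⟨_, _, rfl, rfl⟩)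
    · -- a = iv d
      rw [h.map_iv, mul_assoc] at hv
      have hreg : ∀ t, HH d e (iv d :: s) (iv d :: t) := fun t =>
        Or.inr (Or.inr (Or.inr ⟨_, _, _, rfl, rfl, n5, fun h1 => absurd h1 n4,
          fun h1 => absurd h1 n3⟩))
      by_cases hz1 : ∃ t, z.toWord = e :: t
      · obtain ⟨t, ht⟩ := hz1
        have k1 : (G (iv e) * z).toWord = t := tw_cancel (by rw [iv_iv]; exact ht)
        have k2 : (G (iv d) * (G (iv e) * z)).toWord = iv d :: t := by
          conv_rhs => rw [← k1]
          refine tw_cons fun s1 hs1 => ?_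
          rw [k1, iv_iv] at hs1
          rcases ih' with ⟨-, h2⟩ | ⟨s2, t2, h1, h2⟩ | ⟨s2, t2, h1, h2⟩ | ⟨b, s2, t2, h1, h2, h3, h4, h5⟩
          · rw [ht] at h2
            exact absurd h2 (List.cons_ne_nil _ _)
          · exact hred _ _ h1 (iv_iv d).symm
          · rw [ht] at h2
            exact n1 (List.cons.inj h2).1.symm
          · rw [ht] at h2
            have h6 := List.cons.inj h2
            exact h5 h6.1.symm s1 (by rw [← h6.2]; exact hs1)
        rw [hv, k2]
        exact hreg _
      · have k1 : (G (iv e) * z).toWord = iv e :: z.toWord := by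
          refine tw_cons fun s1 hs1 => hz1 ⟨s1, ?_⟩
          rw [hs1, iv_iv]
        have k2 : (G (iv d) * (G (iv e) * z)).toWord = iv d :: iv e :: z.toWord := by
          rw [← k1]
          refine tw_cons fun s1 hs1 => ?_
          rw [k1, iv_iv] at hs1
          exact n2 (List.cons.inj hs1).1.symm
        rw [hv, k2]
        exact hreg _
    · -- a fixed
      rw [h.fix a ha] at hv
      have a1 : a ≠ d := ne_fst ha
      have a2 : iv a ≠ d := ne_fst (a := iv a) ha
      rcases ih' with ⟨h1, h2⟩ | ⟨s2, t2, h1, h2⟩ | ⟨s2, t2, h1, h2⟩ | ⟨b, s2, t2, h1, h2, h3, h4, h5⟩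
      · have k1 : (G a * z).toWord = a :: z.toWord := by
          refine tw_cons fun s1 hs1 => ?_
          rw [hs1] at h2
          exact List.cons_ne_nil _ _ h2
        rw [hv, k1, h1, h2]
        exact Or.inr (Or.inr (Or.inr ⟨_, _, _, rfl, rfl, a1, fun _ s' h6 =>
          List.cons_ne_nil _ _ h6.symm, fun _ s' h6 => List.cons_ne_nil _ _ h6.symm⟩))
      · by_cases hc : a = iv e
        · have k1 : (G a * z).toWord = d :: t2 := tw_cancel (by rw [hc, iv_iv]; exact h2)
          rw [hv, k1, h1, hc]
          exact Or.inr (Or.inr (Or.inl ⟨_, _, rfl, rfl⟩))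
        · have k1 : (G a * z).toWord = a :: z.toWord := by
            refine tw_cons fun s1 hs1 => ?_
            rw [hs1] at h2
            apply hc
            rw [← (List.cons.inj h2).1, iv_iv]
          rw [hv, k1, h1, h2]
          exact Or.inr (Or.inr (Or.inr ⟨_, _, _, rfl, rfl, a1, fun h6 => absurd h6 hc,
            fun _ s' h6 => n1 (List.cons.inj h6).1.symm⟩))
      · have k1 : (G a * z).toWord = a :: z.toWord := by
          refine tw_cons fun s1 hs1 => ?_
          rw [hs1] at h2
          exact a2 (List.cons.inj h2).1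
        have h7 := hred _ _ h1
        rw [hv, k1, h1, h2]
        exact Or.inr (Or.inr (Or.inr ⟨_, _, _, rfl, rfl, a1, fun _ s' h6 =>
          n2 (List.cons.inj h6).1.symm, fun h6 => absurd (by rw [h6]) h7⟩))
      · have k1 : (G a * z).toWord = a :: z.toWord := by
          refine tw_cons fun s1 hs1 => ?_
          rw [hs1] at h2
          exact hred _ _ h1 (List.cons.inj h2).1.symm
        rw [hv, k1, h1, h2]
        exact Or.inr (Or.inr (Or.inr ⟨_, _, _, rfl, rfl, a1, fun _ s' h6 =>
          h3 (List.cons.inj h6).1, fun _ s' h6 => h3 (List.cons.inj h6).1⟩))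

end

variable {n : ℕ} {p p' : α × Bool → ℕ}

/-- two words with the same first letter, compared by the second one -/
lemma lt_second {x y : FreeGroup α} {e : α × Bool} {s t : List (α × Bool)}
    (hx : x.toWord = e :: s) (hy : y.toWord = e :: t)
    (hk : key n (p' (iv e)) (hd p' s) < key n (p' (iv e)) (hd p' t)) : lt n p' x y := by
  unfold lt ltp
  rw [hx, hy]
  show (key n 0 (p' e) :: code n p' (p' (iv e)) s) < (key n 0 (p' e) :: code n p' (p' (iv e)) t)
  rw [List.cons_lt_cons_iff, code_eq n p' _ s, code_eq n p' _ t, List.cons_lt_cons_iff]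
  exact Or.inr ⟨rfl, Or.inl hk⟩

theorem slide_fwd {ψ : FreeGroup α →* FreeGroup α} {d e : α × Bool} (h : Arr n p) (h' : Arr n p')
    (hs : Slides ψ d e) (h1 : ∀ f, f ≠ d → (p f < p d ↔ p f < p e))
    (h2 : ∀ f f', f ≠ d → f' ≠ d → (p' f < p' f' ↔ p f < p f'))
    (h3 : ∀ f, f ≠ d → (p' f < p' d ↔ p' f ≤ p' (iv e))) :
    ∀ x y, lt n p x y → lt n p' (ψ x) (ψ y) := by
  refine unique h (fun x y => lt n p' (ψ x) (ψ y)) ?_ ?_ (fun x y => lt_asymm)
  · intro l x y z hc
    have := cyc_mul h' (ψ (G l)) (x := ψ x) (y := ψ y) (z := ψ z) hc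
    have e : ∀ u, ψ (G l * u) = ψ (G l) * ψ u := fun u => map_mul _ _ _
    unfold Cyc at *
    simp only [e]
    exact this
  · intro x y hxy
    have n1 := hs.ne1
    have n2 := hs.ne2
    have n6 := iv_ne e
    have i1 : p e ≠ p (iv e) := fun h4 => n6 (h.inj h4).symm
    have i2 : p d ≠ p e := fun h4 => n1 (h.inj h4)
    have i3 : p d ≠ p (iv e) := fun h4 => n2 (h.inj h4)
    have i1' : p' e ≠ p' (iv e) := fun h4 => n6 (h'.inj h4).symm
    have i2' : p' d ≠ p' e := fun h4 => n1 (h'.inj h4)
    have i3' : p' d ≠ p' (iv e) := fun h4 => n2 (h'.inj h4)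
    have a1 := h1 e n1.symm
    have a2 := h1 (iv e) n2.symm
    have a3 := h2 e (iv e) n1.symm n2.symm
    have a4 := h2 (iv e) e n2.symm n1.symm
    have a5 := h3 e n1.symm
    have a6 := h3 (iv e) n2.symm
    have hx := hs.head _ x rfl
    have hy := hs.head _ y rfl
    rcases hx with ⟨wx, vx⟩ | ⟨sx, tx, wx, vx⟩ | ⟨sx, tx, wx, vx⟩ | ⟨b, sx, tx, wx, vx, bx1, bx2, bx3⟩
    · -- x = 1
      rcases hy with ⟨wy, vy⟩ | ⟨sy, ty, wy, vy⟩ | ⟨sy, ty, wy, vy⟩ | ⟨c, sy, ty, wy, vy, by1, by2, by3⟩
      · rw [wx, wy] at hxy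
        exact absurd hxy (_root_.lt_irrefl _)
      all_goals
        refine lt_of_hd h' ?_
        rw [vx, vy]
        exact h'.lo _
    · -- x starts with d
      rcases hy with ⟨wy, vy⟩ | ⟨sy, ty, wy, vy⟩ | ⟨sy, ty, wy, vy⟩ | ⟨c, sy, ty, wy, vy, by1, by2, by3⟩
      · rw [wx, wy] at hxy
        exact absurd hxy (Nat.not_lt_zero _)
      · rw [wx, wy] at hxy
        exact absurd hxy (_root_.lt_irrefl _)
      · refine lt_of_hd h' ?_
        rw [vx, vy]
        rw [wx, wy] at hxy
        simp only [hd] at *
        omega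
      · rw [wx, wy] at hxy
        simp only [hd] at hxy
        have b1 := h1 c by1
        by_cases hce : c = e
        · subst hce
          refine lt_second vx vy ?_
          have hQ := h'.hi d
          have hP := h'.hi (iv c)
          have hR0 : hd p' ty ≠ p' d := by
            cases ty with
            | nil => exact (Nat.ne_of_gt (h'.lo d)).symm
            | cons u t2 =>
              intro h4
              exact by3 rfl t2 (by rw [h'.inj h4])
          have hR1 : hd p' ty ≠ p' (iv c) := by
            cases ty with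
            | nil => exact (Nat.ne_of_gt (h'.lo _)).symm
            | cons u t2 =>
              intro h4
              exact red_ne vy (h'.inj h4)
          have hR2 : hd p' ty < p' d ↔ hd p' ty ≤ p' (iv c) := by
            cases ty with
            | nil =>
              have := h'.lo d
              simp only [hd]
              omega
            | cons u t2 =>
              refine h3 u fun h4 => ?_
              exact by3 rfl t2 (by rw [h4])
          have hR := hd_lt h' ty
          have hd0 : hd p' (d :: tx) = p' d := rfl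
          rw [hd0, key_val hP hQ, key_val hP hR]
          split_ifs <;> omega
        · refine lt_of_hd h' ?_
          rw [vx, vy]
          simp only [hd]
          have b2 := h2 e c n1.symm by1
          have b3 : p c ≠ p e := fun h4 => hce (h.inj h4)
          have b4 : p c ≠ p d := fun h4 => by1 (h.inj h4)
          omega
    · -- x starts with iv e, d
      rcases hy with ⟨wy, vy⟩ | ⟨sy, ty, wy, vy⟩ | ⟨sy, ty, wy, vy⟩ | ⟨c, sy, ty, wy, vy, by1, by2, by3⟩
      · rw [wx, wy] at hxy
        exact absurd hxy (Nat.not_lt_zero _)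
      · refine lt_of_hd h' ?_
        rw [vx, vy]
        rw [wx, wy] at hxy
        simp only [hd] at *
        omega
      · rw [wx, wy] at hxy
        exact absurd hxy (_root_.lt_irrefl _)
      · refine lt_of_hd h' ?_
        rw [vx, vy]
        rw [wx, wy] at hxy
        simp only [hd] at *
        have b2 := h2 (iv e) c n2.symm by1
        have b3 := h3 c by1
        have b4 : p' c ≠ p' d := fun h4 => by1 (h'.inj h4)
        omega
    · -- x regular
      rcases hy with ⟨wy, vy⟩ | ⟨sy, ty, wy, vy⟩ | ⟨sy, ty, wy, vy⟩ | ⟨c, sy, ty, wy, vy, by1, by2, by3⟩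
      · rw [wx, wy] at hxy
        exact absurd hxy (Nat.not_lt_zero _)
      · refine lt_of_hd h' ?_
        rw [vx, vy]
        rw [wx, wy] at hxy
        simp only [hd] at *
        have b1 := h1 b bx1
        have b2 := h2 b e bx1 n1.symm
        omega
      · refine lt_of_hd h' ?_
        rw [vx, vy]
        rw [wx, wy] at hxy
        simp only [hd] at *
        have b2 := h2 b (iv e) bx1 n2.symm
        have b3 := h3 b bx1
        omega
      · refine lt_of_hd h' ?_
        rw [vx, vy]
        rw [wx, wy] at hxy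
        simp only [hd] at *
        exact (h2 b c bx1 by1).2 hxy

theorem slide_bwd {ψ : FreeGroup α →* FreeGroup α} {d e : α × Bool} (h : Arr n p) (h' : Arr n p')
    (hs : Slides ψ d e) (h1 : ∀ f, f ≠ d → (p f < p d ↔ p f ≤ p e))
    (h2 : ∀ f f', f ≠ d → f' ≠ d → (p' f < p' f' ↔ p f < p f'))
    (h3 : ∀ f, f ≠ d → (p' f < p' d ↔ p' f < p' (iv e))) :
    ∀ x y, lt n p x y → lt n p' (ψ x) (ψ y) := by
  refine unique h (fun x y => lt n p' (ψ x) (ψ y)) ?_ ?_ (fun x y => lt_asymm)
  · intro l x y z hc
    have := cyc_mul h' (ψ (G l)) (x := ψ x) (y := ψ y) (z := ψ z) hc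
    have e : ∀ u, ψ (G l * u) = ψ (G l) * ψ u := fun u => map_mul _ _ _
    unfold Cyc at *
    simp only [e]
    exact this
  · intro x y hxy
    have n1 := hs.ne1
    have n2 := hs.ne2
    have n6 := iv_ne e
    have i1 : p e ≠ p (iv e) := fun h4 => n6 (h.inj h4).symm
    have i2 : p d ≠ p e := fun h4 => n1 (h.inj h4)
    have i3 : p d ≠ p (iv e) := fun h4 => n2 (h.inj h4)
    have i1' : p' e ≠ p' (iv e) := fun h4 => n6 (h'.inj h4).symm
    have i2' : p' d ≠ p' e := fun h4 => n1 (h'.inj h4)
    have i3' : p' d ≠ p' (iv e) := fun h4 => n2 (h'.inj h4)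
    have a1 := h1 e n1.symm
    have a2 := h1 (iv e) n2.symm
    have a3 := h2 e (iv e) n1.symm n2.symm
    have a4 := h2 (iv e) e n2.symm n1.symm
    have a5 := h3 e n1.symm
    have a6 := h3 (iv e) n2.symm
    have hx := hs.head _ x rfl
    have hy := hs.head _ y rfl
    rcases hx with ⟨wx, vx⟩ | ⟨sx, tx, wx, vx⟩ | ⟨sx, tx, wx, vx⟩ | ⟨b, sx, tx, wx, vx, bx1, bx2, bx3⟩
    · -- x = 1
      rcases hy with ⟨wy, vy⟩ | ⟨sy, ty, wy, vy⟩ | ⟨sy, ty, wy, vy⟩ | ⟨c, sy, ty, wy, vy, by1, by2, by3⟩
      · rw [wx, wy] at hxy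
        exact absurd hxy (_root_.lt_irrefl _)
      all_goals
        refine lt_of_hd h' ?_
        rw [vx, vy]
        exact h'.lo _
    · -- x starts with d
      rcases hy with ⟨wy, vy⟩ | ⟨sy, ty, wy, vy⟩ | ⟨sy, ty, wy, vy⟩ | ⟨c, sy, ty, wy, vy, by1, by2, by3⟩
      · rw [wx, wy] at hxy
        exact absurd hxy (Nat.not_lt_zero _)
      · rw [wx, wy] at hxy
        exact absurd hxy (_root_.lt_irrefl _)
      · refine lt_of_hd h' ?_
        rw [vx, vy]
        rw [wx, wy] at hxy
        simp only [hd] at *
        omega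
      · refine lt_of_hd h' ?_
        rw [wx, wy] at hxy
        rw [vx, vy]
        simp only [hd] at *
        have b1 := h1 c by1
        have b2 := h2 e c n1.symm by1
        have b4 : p c ≠ p d := fun h4 => by1 (h.inj h4)
        omega
    · -- x starts with iv e, d
      rcases hy with ⟨wy, vy⟩ | ⟨sy, ty, wy, vy⟩ | ⟨sy, ty, wy, vy⟩ | ⟨c, sy, ty, wy, vy, by1, by2, by3⟩
      · rw [wx, wy] at hxy
        exact absurd hxy (Nat.not_lt_zero _)
      · refine lt_of_hd h' ?_
        rw [vx, vy]
        rw [wx, wy] at hxy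
        simp only [hd] at *
        omega
      · rw [wx, wy] at hxy
        exact absurd hxy (_root_.lt_irrefl _)
      · refine lt_of_hd h' ?_
        rw [vx, vy]
        rw [wx, wy] at hxy
        simp only [hd] at *
        have b2 := h2 (iv e) c n2.symm by1
        have b3 := h3 c by1
        have b4 : p' c ≠ p' d := fun h4 => by1 (h'.inj h4)
        omega
    · -- x regular
      rcases hy with ⟨wy, vy⟩ | ⟨sy, ty, wy, vy⟩ | ⟨sy, ty, wy, vy⟩ | ⟨c, sy, ty, wy, vy, by1, by2, by3⟩
      · rw [wx, wy] at hxy
        exact absurd hxy (Nat.not_lt_zero _)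
      · rw [wx, wy] at hxy
        simp only [hd] at hxy
        have b1 := h1 b bx1
        by_cases hce : b = e
        · subst hce
          refine lt_second vx vy ?_
          have hQ := h'.hi d
          have hP := h'.hi (iv b)
          have hR0 : hd p' tx ≠ p' d := by
            cases tx with
            | nil => exact (Nat.ne_of_gt (h'.lo d)).symm
            | cons u t2 =>
              intro h4
              exact bx3 rfl t2 (by rw [h'.inj h4])
          have hR1 : hd p' tx ≠ p' (iv b) := by
            cases tx with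
            | nil => exact (Nat.ne_of_gt (h'.lo _)).symm
            | cons u t2 =>
              intro h4
              exact red_ne vx (h'.inj h4)
          have hR2 : hd p' tx < p' d ↔ hd p' tx < p' (iv b) := by
            cases tx with
            | nil =>
              have := h'.lo d
              have := h'.lo (iv b)
              simp only [hd]
              omega
            | cons u t2 =>
              refine h3 u fun h4 => ?_
              exact bx3 rfl t2 (by rw [h4])
          have hR := hd_lt h' tx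
          have hd0 : hd p' (d :: ty) = p' d := rfl
          rw [hd0, key_val hP hQ, key_val hP hR]
          split_ifs <;> omega
        · refine lt_of_hd h' ?_
          rw [vx, vy]
          simp only [hd]
          have b2 := h2 b e bx1 n1.symm
          have b3 : p b ≠ p e := fun h4 => hce (h.inj h4)
          omega
      · refine lt_of_hd h' ?_
        rw [vx, vy]
        rw [wx, wy] at hxy
        simp only [hd] at *
        have b2 := h2 b (iv e) bx1 n2.symm
        have b3 := h3 b bx1
        omega
      · refine lt_of_hd h' ?_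
        rw [vx, vy]
        rw [wx, wy] at hxy
        simp only [hd] at *
        exact (h2 b c bx1 by1).2 hxy

end Pool.Agent.N513.PF
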