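import Pool.Agent.N513.PF.Ping
import Pool.Agent.N513.PF.Gen

/-!
# Every automorphism that fixes the boundary word preserves the planar order
-/

set_option autoImplicit false
set_option linter.unusedSectionVars false
set_option linter.unusedVariables false

namespace Pool.Agent.N513.PF

variable {α : Type*} [DecidableEq α] {n : ℕ} {p : α × Bool → ℕ}

lemma Bd.nodup {q : ℕ} {s : List (α × Bool)} (h : Arr n p) (hs : Bd n p q s) : s.Nodup := by
  induction s generalizing q with
  | nil => exact List.nodup_nil
  | cons l s ih =>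
    rw [List.nodup_cons]
    refine ⟨fun h1 => ?_, ih hs.2⟩
    obtain ⟨S, T, hST⟩ := List.append_of_mem h1
    have h2 := hs.2
    have h3 := hs.2
    rw [hST] at h3
    have h4 := Bd.unique h h2 h3.append.1
    have h5 := congrArg List.length hST
    rw [← h4] at h5
    simp at h5
    omega

lemma iv_injective : Function.Injective (iv : α × Bool → α × Bool) := fun _ _ => iv_inj

lemma sum_pairs {zl : List (α × Bool)} (hnd : zl.Nodup) (hall : ∀ a, a ∈ zl)
    (g : α × Bool → ℤ) (hg : ∀ l, g l + g (iv l) = -1) :
    2 * (zl.map g).sum = -(zl.length : ℤ) := by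
  have h1 : zl.Perm (zl.map iv) := by
    refine (List.perm_ext_iff_of_nodup hnd (hnd.map iv_injective)).2 fun a => ?_
    refine ⟨fun _ => ?_, fun _ => hall a⟩
    exact List.mem_map.2 ⟨iv a, hall _, iv_iv a⟩
  have h2 : (zl.map g).sum = ((zl.map iv).map g).sum := (h1.map g).sum_eq
  have h3 : ∀ w : List (α × Bool), (w.map g).sum + ((w.map iv).map g).sum = -(w.length : ℤ) := by
    intro w
    induction w with
    | nil => simp
    | cons a w ih =>
      have := hg a
      simp only [List.map_cons, List.sum_cons, List.length_cons]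
      push_cast
      linarith
  have h4 := h3 zl
  rw [← h2] at h4
  linarith

lemma prod_map (φ : FreeGroup α →* FreeGroup α) (w : List (α × Bool)) :
    (w.map fun l => φ (G l)).prod = φ (FreeGroup.mk w) := by
  induction w with
  | nil =>
    have e : FreeGroup.mk ([] : List (α × Bool)) = 1 := rfl
    rw [e, map_one]
    rfl
  | cons a w ih =>
    rw [mk_cons, map_mul, ← ih]
    rfl

lemma ff_one (h : Arr n p) (b : FreeGroup α) : ff n p 1 b = 0 := by
  refine ind_false fun h1 => ?_
  by_cases hb : b = 1
  · rw [hb, one_mul] at h1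
    exact lt_irrefl _ h1
  · rw [one_mul] at h1
    exact lt_asymm h1 (one_lt h hb)

/-- the number of descents of the image of the boundary word -/
lemma desc_total (h : Arr n p) {zl : List (α × Bool)} (hb : Bd n p 0 zl) (hall : ∀ a, a ∈ zl)
    (φ : MulAut (FreeGroup α)) (hφ : φ (FreeGroup.mk zl) = FreeGroup.mk zl) :
    2 * desc n p 1 (zl.map fun l => φ (G l)) =
      2 * tau p (FreeGroup.mk zl) + (zl.length : ℤ) := by
  have h1 := tau_prod h 1 (zl.map fun l => φ (G l))
  rw [one_mul] at h1
  have h2 : (zl.map fun l => φ (G l)).prod = FreeGroup.mk zl := by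
    have := prod_map φ.toMonoidHom zl
    rw [← hφ]
    exact this
  rw [h2, tau_one, List.map_map] at h1
  have h3 := sum_pairs (hb.nodup h) hall (fun l => tau p (φ (G l))) (fun l => by
    have e : φ (G (iv l)) = (φ (G l))⁻¹ := by rw [G_inv, map_inv]
    rw [e]
    refine tau_inv h fun h4 => G_ne_one l ?_
    exact (map_eq_one_iff φ φ.injective).1 h4)
  have h4 : (zl.map (tau p ∘ fun l => φ (G l))).sum = (zl.map fun l => tau p (φ (G l))).sum := rfl
  rw [h4] at h1
  linarith

/-- the boundary word has all the descents -/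
lemma desc_self (h : Arr n p) {l1 : α × Bool} {zl : List (α × Bool)} (hb : Bd n p 0 (l1 :: zl)) :
    desc n p 1 ((l1 :: zl).map fun l => (1 : MulAut (FreeGroup α)) (G l)) = (zl.length : ℤ) := by
  have e1 : desc n p 1 ((l1 :: zl).map fun l => (1 : MulAut (FreeGroup α)) (G l)) =
      ff n p 1 (G l1) + desc n p (1 * G l1) (zl.map fun l => G l) := rfl
  rw [e1, ff_one h, zero_add]
  have key := desc_of (n := n) (p := p) (u := 1 * G l1) (w := zl.map fun l => G l) ?_
  · rw [key, List.length_map]
  · intro s t a hst
    obtain ⟨S, T', hS1, hS2, hS3⟩ := List.map_eq_append_iff.1 hst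
    obtain ⟨b, T, hT1, hT2, hT3⟩ := List.map_eq_cons_iff.1 hS3
    have e2 : s.prod = FreeGroup.mk S := by
      rw [← hS2]
      exact prod_map (MonoidHom.id _) S
    rw [e2, one_mul, ← hT2, ← mk_cons]
    have e3 : FreeGroup.mk (l1 :: S) * G b = FreeGroup.mk ((l1 :: S) ++ [b]) := by
      rw [mk_app]
      rfl
    rw [e3]
    have hz : l1 :: zl = (l1 :: S) ++ b :: T := by rw [hS1, hT1]; rfl
    have hred := hb.red
    have r1 : FreeGroup.IsReduced ((l1 :: S) ++ [b]) := by
      refine red_sub hred ⟨[], T, ?_⟩
      rw [hz]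
      simp
    have r2 : FreeGroup.IsReduced (l1 :: S) := by
      refine red_sub hred ⟨[], b :: T, ?_⟩
      rw [hz]
      simp
    unfold lt
    rw [mk_word r1, mk_word r2]
    -- the last letter of the prefix
    obtain ⟨S0, c, hc⟩ : ∃ S0 c, l1 :: S = S0 ++ [c] :=
      ⟨(l1 :: S).dropLast, (l1 :: S).getLast (List.cons_ne_nil _ _),
        (List.dropLast_append_getLast _).symm⟩
    rw [hc]
    have e4 : S0 ++ [c] ++ [b] = S0 ++ c :: [b] := by simp
    rw [e4]
    show ltp n p 0 (S0 ++ c :: [b]) (S0 ++ c :: [])
    rw [ltp_append]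
    rw [hz] at hb
    have h5 := hb.append.2.2 S0 c hc
    have h6 := h.hi b
    have h7 := h.hi (iv c)
    have h8 := h.lo (iv c)
    rw [ltp_iff h h7]
    left
    simp only [hd]
    rw [key_val h7 h6, key_val h7 h.n0]
    split_ifs <;> omega

/-- an automorphism that fixes the boundary word preserves the order -/
theorem stab_pres (h : Arr n p) {zl : List (α × Bool)} (hb : Bd n p 0 zl) (hall : ∀ a, a ∈ zl)
    (hne : zl ≠ []) (φ : MulAut (FreeGroup α)) (hφ : φ (FreeGroup.mk zl) = FreeGroup.mk zl) :
    ∀ x y, lt n p x y → lt n p (φ x) (φ y) := by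
  obtain ⟨l1, rest, hz⟩ := List.exists_cons_of_ne_nil hne
  have hdesc : desc n p 1 (zl.map fun l => φ (G l)) = (rest.length : ℤ) := by
    have h1 := desc_total h hb hall φ hφ
    have h2 := desc_total h hb hall 1 rfl
    have h3 : desc n p 1 (zl.map fun l => (1 : MulAut (FreeGroup α)) (G l)) =
        (rest.length : ℤ) := by
      rw [hz] at hb ⊢
      exact desc_self h hb
    linarith
  have hds : ∀ P a Q, P ≠ [] → zl = P ++ a :: Q →
      lt n p (φ (FreeGroup.mk P * G a)) (φ (FreeGroup.mk P)) := by
    intro P a Q hP hPQ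
    have e1 : desc n p 1 (zl.map fun l => φ (G l)) =
        ff n p 1 (φ (G l1)) + desc n p (1 * φ (G l1)) (rest.map fun l => φ (G l)) := by
      rw [hz]
      rfl
    rw [e1, ff_one h, zero_add] at hdesc
    have h4 : desc n p (1 * φ (G l1)) (rest.map fun l => φ (G l)) =
        ((rest.map fun l => φ (G l)).length : ℤ) := by
      rw [hdesc, List.length_map]
    obtain ⟨c, P', hP'⟩ := List.exists_cons_of_ne_nil hP
    rw [hP', hz] at hPQ
    have h5 := List.cons.inj hPQ
    have h6 := desc_eq h4 (P'.map fun l => φ (G l)) (Q.map fun l => φ (G l)) (φ (G a)) (by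
      rw [h5.2]
      simp)
    have e2 : (P'.map fun l => φ (G l)).prod = φ (FreeGroup.mk P') :=
      prod_map φ.toMonoidHom P'
    rw [e2, one_mul, ← map_mul, h5.1, ← mk_cons, ← map_mul] at h6
    rw [hP']
    exact h6
  refine unique h (fun x y => lt n p (φ x) (φ y)) ?_ ?_ (fun x y => lt_asymm)
  · intro l x y z hc
    have := cyc_mul h (φ (G l)) (x := φ x) (y := φ y) (z := φ z) hc
    have e : ∀ u, φ (G l * u) = φ (G l) * φ u := fun u => map_mul _ _ _
    unfold Cyc at *
    simp only [e]
    exact this
  · refine pingpong h zl hb hall (fun x y => lt n p (φ x) (φ y)) (fun x => lt_irrefl _)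
      (fun x y z => lt_trans) ?_ ?_ ?_ ?_ hds
    · intro x y
      rcases lt_tri h (φ x) (φ y) with h1 | h1 | h1
      · exact Or.inl h1
      · exact Or.inr (Or.inl (φ.injective h1))
      · exact Or.inr (Or.inr h1)
    · intro x hx
      show lt n p (φ 1) (φ x)
      rw [map_one]
      exact one_lt h fun h1 => hx ((map_eq_one_iff φ φ.injective).1 h1)
    · intro u x y z hc
      have := cyc_mul h (φ u) (x := φ x) (y := φ y) (z := φ z) hc
      have e : ∀ w, φ (u * w) = φ u * φ w := fun w => map_mul _ _ _
      unfold Cyc at *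
      simp only [e]
      exact this
    · intro x hx1 hx2
      show lt n p (φ (FreeGroup.mk zl)) (φ x)
      rw [hφ]
      have h1 : φ x ≠ 1 := fun h2 => hx1 ((map_eq_one_iff φ φ.injective).1 h2)
      have h2 : φ x ≠ FreeGroup.mk zl := fun h3 => hx2 (φ.injective (by rw [h3, hφ]))
      unfold lt
      rw [mk_word hb.red]
      refine hb.min h h.n0 FreeGroup.isReduced_toWord ?_ ?_
      · cases hw : (φ x).toWord with
        | nil => exact absurd (FreeGroup.toWord_eq_nil_iff.1 hw) h1
        | cons m s => exact (h.lo m).ne'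
      · intro h3
        apply h2
        rw [h3, FreeGroup.mk_toWord]

/-! ### The standard surface -/

/-- the letters of the commutator of the handle `i` -/
def blk {g : ℕ} (i : Fin g) : List ((Fin g × Bool) × Bool) :=
  [((i, false), true), ((i, true), true), ((i, false), false), ((i, true), false)]

/-- the standard boundary word -/
def zw (g : ℕ) : List ((Fin g × Bool) × Bool) := (List.finRange g).flatMap blk

lemma zw_all (g : ℕ) (a : (Fin g × Bool) × Bool) : a ∈ zw g := by
  unfold zw
  rw [List.mem_flatMap]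
  obtain ⟨⟨i, b⟩, s⟩ := a
  refine ⟨i, List.mem_finRange i, ?_⟩
  unfold blk
  cases b <;> cases s <;> simp

lemma zw_bd_aux (g : ℕ) (is : List (Fin g)) : ∀ k : ℕ,
    (∀ (j : ℕ) (hj : j < is.length), (is[j]).val = k + j) → k + is.length = g →
    Bd (4 * g + 1) (pos0 g) (4 * k) (is.flatMap blk) := by
  induction is with
  | nil =>
    intro k _ h2
    simp only [List.flatMap_nil, Bd]
    simp only [List.length_nil] at h2
    omega
  | cons i is ih =>
    intro k h1 h2
    have hi : i.val = k := by
      have := h1 0 (by simp)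
      simpa using this
    have h3 := ih (k + 1) (fun j hj => by
      have := h1 (j + 1) (by simp; omega)
      simp only [List.getElem_cons_succ] at this
      omega) (by simp only [List.length_cons] at h2; omega)
    rw [List.flatMap_cons]
    refine ⟨?_, ?_, ?_, ?_, ?_⟩
    · simp [pos0, hi]
    · simp [pos0, hi, iv]
    · simp [pos0, hi, iv]
    · simp [pos0, hi, iv]
    · have e : pos0 g (iv ((i, true), false)) = 4 * (k + 1) := by
        simp only [pos0, iv, hi]
        simp
        ring
      rw [e]
      exact h3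

lemma zw_bd (g : ℕ) : Bd (4 * g + 1) (pos0 g) 0 (zw g) := by
  have := zw_bd_aux g (List.finRange g) 0 (fun j hj => by simp) (by simp)
  unfold zw
  simpa using this

/-- the automorphisms of the standard surface preserve the order -/
theorem std_pres {g : ℕ} (φ : MulAut (FreeGroup (Fin g × Bool)))
    (hφ : φ (FreeGroup.mk (zw g)) = FreeGroup.mk (zw g)) :
    ∀ x y, lt (4 * g + 1) (pos0 g) x y → lt (4 * g + 1) (pos0 g) (φ x) (φ y) := by
  rcases Nat.eq_zero_or_pos g with rfl | hg
  · intro x y h1
    exfalso
    have e : ∀ z : FreeGroup (Fin 0 × Bool), z = 1 := by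
      intro z
      cases hz : z.toWord with
      | nil => exact FreeGroup.toWord_eq_nil_iff.1 hz
      | cons l s => exact l.1.1.elim0
    rw [e x, e y] at h1
    exact lt_irrefl _ h1
  · refine stab_pres (pos0_arr g) (zw_bd g) (zw_all g) ?_ φ hφ
    intro h1
    have := zw_all g ((⟨0, hg⟩, false), true)
    rw [h1] at this
    exact absurd this (by simp)

end Pool.Agent.N513.PF
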