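import Pool.Agent.N513.PF.Zeta
import Pool.Agent.N513.PF.Slide

/-!
# The Euler number of the planar order
-/

set_option autoImplicit false
set_option linter.unusedSectionVars false
set_option linter.unusedVariables false

namespace Pool.Agent.N513.PF

variable {α : Type*} [DecidableEq α] {n : ℕ} {p : α × Bool → ℕ}

open Classical in
/-- indicator -/
noncomputable def ind (P : Prop) : ℤ := if P then 1 else 0

lemma ind_true {P : Prop} (h : P) : ind P = 1 := if_pos h
lemma ind_false {P : Prop} (h : ¬ P) : ind P = 0 := if_neg h
lemma ind_le (P : Prop) : ind P ≤ 1 := by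
  by_cases h : P
  · rw [ind_true h]
  · rw [ind_false h]; norm_num
lemma ind_congr {P Q : Prop} (h : P ↔ Q) : ind P = ind Q := by
  by_cases h1 : P
  · rw [ind_true h1, ind_true (h.1 h1)]
  · rw [ind_false h1, ind_false (fun h2 => h1 (h.2 h2))]
lemma ind_eq_one {P : Prop} (h : ind P = 1) : P := by
  by_contra h1
  rw [ind_false h1] at h
  norm_num at h

/-- the cocycle -/
noncomputable def ff (n : ℕ) (p : α × Bool → ℕ) (a b : FreeGroup α) : ℤ := ind (lt n p (a * b) a)

lemma one_lt (h : Arr n p) {x : FreeGroup α} (hx : x ≠ 1) : lt n p 1 x := by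
  refine lt_of_hd h ?_
  rw [FreeGroup.toWord_one]
  cases hw : x.toWord with
  | nil => exact absurd (FreeGroup.toWord_eq_nil_iff.1 hw) hx
  | cons l s => exact h.lo l

lemma cyc_mul_iff (h : Arr n p) (u : FreeGroup α) {x y z : FreeGroup α} :
    Cyc (lt n p) (u * x) (u * y) (u * z) ↔ Cyc (lt n p) x y z := by
  constructor
  · intro h1
    have := cyc_mul h u⁻¹ h1
    simpa using this
  · exact cyc_mul h u

/-- three points of a linear order -/
lemma ind_three {β : Type*} {r : β → β → Prop} (ir : ∀ a, ¬ r a a)
    (tr : ∀ a b c, r a b → r b c → r a c) (tri : ∀ a b, r a b ∨ a = b ∨ r b a) (P Q R : β) :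
    ind (r Q P) + ind (r R Q) = ind (r R P) + ind (Cyc r P R Q ∨ (R = P ∧ Q ≠ P)) := by
  by_cases e1 : Q = P
  · subst e1
    rw [ind_false (ir Q), ind_false (P := Cyc r Q R Q ∨ (R = Q ∧ Q ≠ Q))]
    · ring
    · rintro (h | h)
      · rcases h with ⟨h1, h2⟩ | ⟨h1, h2⟩ | ⟨h1, h2⟩
        · exact ir _ (tr _ _ _ h1 h2)
        · exact ir _ h2
        · exact ir _ h1
      · exact h.2 rfl
  · by_cases e2 : R = Q
    · subst e2
      rw [ind_false (ir R), ind_false (P := Cyc r P R R ∨ (R = P ∧ R ≠ P))]
      rintro (h | h)
      · rcases h with ⟨h1, h2⟩ | ⟨h1, h2⟩ | ⟨h1, h2⟩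
        · exact ir _ h2
        · exact ir _ h1
        · exact ir _ (tr _ _ _ h1 h2)
      · exact h.2 h.1
    · by_cases e3 : R = P
      · subst e3
        rw [ind_false (ir R), ind_true (P := Cyc r R R Q ∨ (R = R ∧ Q ≠ R)) (Or.inr ⟨rfl, e1⟩)]
        rcases tri Q R with h | h | h
        · rw [ind_true h, ind_false (fun h1 => ir _ (tr _ _ _ h h1))]
          try norm_num
        · exact absurd h e1
        · rw [ind_true h, ind_false (fun h1 => ir _ (tr _ _ _ h h1))]
          try norm_num
      · have h0 : ∀ a b, r a b → ¬ r b a := fun a b h1 h2 => ir _ (tr _ _ _ h1 h2)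
        unfold Cyc
        rcases tri Q P with h1 | h1 | h1
        · rcases tri R Q with h2 | h2 | h2
          · have h3 := tr _ _ _ h2 h1
            rw [ind_true h1, ind_true h2, ind_true h3, ind_true (Or.inl (Or.inr (Or.inl ⟨h2, h1⟩)))]
          · exact absurd h2 e2
          · rcases tri R P with h3 | h3 | h3
            · rw [ind_true h1, ind_false (h0 _ _ h2), ind_true h3, ind_false]
              rintro ((⟨a, b⟩ | ⟨a, b⟩ | ⟨a, b⟩) | ⟨a, b⟩)
              · exact h0 _ _ h3 a
              · exact h0 _ _ h2 a
              · exact h0 _ _ h3 b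
              · exact e3 a
            · exact absurd h3 e3
            · rw [ind_true h1, ind_false (h0 _ _ h2), ind_false (h0 _ _ h3),
                ind_true (Or.inl (Or.inr (Or.inr ⟨h1, h3⟩)))]
              try norm_num
        · exact absurd h1 e1
        · rcases tri R Q with h2 | h2 | h2
          · rcases tri R P with h3 | h3 | h3
            · rw [ind_false (h0 _ _ h1), ind_true h2, ind_true h3, ind_false]
              · try norm_num
              rintro ((⟨a, b⟩ | ⟨a, b⟩ | ⟨a, b⟩) | ⟨a, b⟩)
              · exact h0 _ _ h3 a
              · exact h0 _ _ h1 b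
              · exact h0 _ _ h1 a
              · exact e3 a
            · exact absurd h3 e3
            · rw [ind_false (h0 _ _ h1), ind_true h2, ind_false (h0 _ _ h3),
                ind_true (Or.inl (Or.inl ⟨h3, h2⟩))]
          · exact absurd h2 e2
          · have h3 := tr _ _ _ h1 h2
            rw [ind_false (h0 _ _ h1), ind_false (h0 _ _ h2), ind_false (h0 _ _ h3), ind_false]
            rintro ((⟨a, b⟩ | ⟨a, b⟩ | ⟨a, b⟩) | ⟨a, b⟩)
            · exact h0 _ _ h2 b
            · exact h0 _ _ h2 a
            · exact h0 _ _ h1 a
            · exact e3 a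

/-- the cocycle identity -/
lemma ff_cocycle (h : Arr n p) (a b c : FreeGroup α) :
    ff n p a b + ff n p (a * b) c = ff n p a (b * c) + ff n p b c := by
  have h1 := ind_three (r := lt n p) lt_irrefl (fun _ _ _ => lt_trans) (lt_tri h) a (a * b)
    (a * b * c)
  have h2 : ff n p b c =
      ind (Cyc (lt n p) a (a * b * c) (a * b) ∨ (a * b * c = a ∧ a * b ≠ a)) := by
    refine ind_congr ?_
    have e1 : Cyc (lt n p) a (a * b * c) (a * b) ↔ Cyc (lt n p) 1 (b * c) b := by
      have := cyc_mul_iff h a (x := 1) (y := b * c) (z := b)
      rw [mul_one, ← mul_assoc] at this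
      exact this
    rw [e1]
    have e2 : a * b * c = a ↔ b * c = 1 := by
      rw [mul_assoc]
      exact mul_eq_left
    have e3 : a * b ≠ a ↔ b ≠ 1 := not_congr mul_eq_left
    rw [e2, e3]
    constructor
    · intro h3
      have hb : b ≠ 1 := by
        rintro rfl
        by_cases hc : (1 : FreeGroup α) * c = 1
        · rw [hc] at h3; exact lt_irrefl _ h3
        · exact lt_asymm h3 (one_lt h hc)
      by_cases hc : b * c = 1
      · exact Or.inr ⟨hc, hb⟩
      · exact Or.inl (Or.inl ⟨one_lt h hc, h3⟩)
    · rintro ((⟨h3, h4⟩ | ⟨h3, h4⟩ | ⟨h3, h4⟩) | ⟨h3, h4⟩)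
      · exact h4
      · exact h3
      · exfalso
        by_cases hb : b = 1
        · rw [hb] at h3; exact lt_irrefl _ h3
        · exact lt_asymm h3 (one_lt h hb)
      · rw [h3]; exact one_lt h h4
  rw [h2]
  unfold ff
  rw [← mul_assoc]
  exact h1

/-- the contribution of a letter -/
def tl (l : α × Bool) : ℤ := if l.2 then -1 else 0

lemma tl_iv (l : α × Bool) : tl l + tl (iv l) = -1 := by
  unfold tl iv
  cases l.2 <;> simp

/-- the primitive of the cocycle on words -/
noncomputable def tw (p : α × Bool → ℕ) : List (α × Bool) → ℤ
  | [] => 0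
  | [l] => tl l
  | l :: m :: w => tl l + ind (p (iv l) < p m) + tw p (m :: w)

/-- the primitive of the cocycle -/
noncomputable def tau (p : α × Bool → ℕ) (x : FreeGroup α) : ℤ := tw p x.toWord

lemma tau_one : tau p 1 = 0 := by
  unfold tau
  rw [FreeGroup.toWord_one]
  rfl

lemma G_word (l : α × Bool) : (G l : FreeGroup α).toWord = [l] := by
  unfold G
  rw [FreeGroup.toWord_mk]
  exact FreeGroup.IsReduced.singleton.reduce_eq

lemma tau_letter (h : Arr n p) (l : α × Bool) (b : FreeGroup α) :
    tau p (G l * b) = tl l + tau p b + ff n p (G l) b := by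
  have hl := h.lo l
  have hn := h.n0
  by_cases hc : ∃ s, b.toWord = iv l :: s
  · obtain ⟨s, hs⟩ := hc
    have e1 : (G l * b).toWord = s := tw_cancel hs
    have e2 := tl_iv l
    have e3 : ff n p (G l) b = ind (hd p s < p l) := by
      refine ind_congr ?_
      cases s with
      | nil =>
        constructor
        · intro _; exact hl
        · intro _
          refine lt_of_hd h ?_
          rw [e1, G_word]
          exact hl
      | cons m s' =>
        have hm : m ≠ l := by
          have := red_ne hs
          rwa [iv_iv] at this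
        have h2 : hd p (G l * b).toWord ≠ hd p (G l : FreeGroup α).toWord := by
          rw [e1, G_word]
          exact fun h3 => hm (h.inj h3)
        rw [lt_iff_hd h h2, e1, G_word]
        rfl
    unfold tau
    rw [e1, hs, e3]
    cases s with
    | nil =>
      rw [ind_true (P := hd p [] < p l) hl]
      show (0 : ℤ) = tl l + tl (iv l) + 1
      omega
    | cons m s' =>
      have hm : m ≠ l := by
        have := red_ne hs
        rwa [iv_iv] at this
      show tw p (m :: s') = tl l + (tl (iv l) + ind (p (iv (iv l)) < p m) + tw p (m :: s')) +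
        ind (p m < p l)
      rw [iv_iv]
      rcases Nat.lt_or_gt_of_ne (fun h3 => hm (h.inj h3)) with h3 | h3
      · rw [ind_true h3, ind_false (by omega)]
        omega
      · rw [ind_true h3, ind_false (by omega)]
        omega
  · have e1 : (G l * b).toWord = l :: b.toWord := tw_cons fun s hs => hc ⟨s, hs⟩
    cases hb : b.toWord with
    | nil =>
      have e3 : ff n p (G l) b = 0 := by
        refine ind_false ?_
        unfold lt
        rw [e1, hb, G_word]
        exact _root_.lt_irrefl _
      unfold tau
      rw [e1, hb, e3]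
      show tl l = tl l + 0 + 0
      ring
    | cons m s' =>
      have hm : m ≠ iv l := fun h2 => hc ⟨s', by rw [hb, h2]⟩
      have hm2 := h.lo m
      have hm3 := h.hi m
      have hm4 := h.hi (iv l)
      have hm5 := h.lo (iv l)
      have e3 : ff n p (G l) b = ind (p (iv l) < p m) := by
        refine ind_congr ?_
        unfold lt
        rw [e1, hb, G_word]
        show ltp n p 0 ([] ++ l :: m :: s') ([] ++ l :: []) ↔ _
        rw [ltp_append 0 [] l (m :: s') [], ltp_iff h (h.hi _)]
        simp only [hd]
        have h4 : p m ≠ p (iv l) := fun h3 => hm (h.inj h3)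
        rw [key_val hm4 hm3, key_val hm4 hn]
        constructor
        · rintro (h3 | h3)
          · split_ifs at h3 <;> omega
          · omega
        · intro h3
          left
          split_ifs <;> omega
      unfold tau
      rw [e1, hb, e3]
      show tl l + ind (p (iv l) < p m) + tw p (m :: s') = _
      ring

/-- the primitive -/
theorem tau_mul (h : Arr n p) (a b : FreeGroup α) :
    tau p (a * b) = tau p a + tau p b + ff n p a b := by
  have key : ∀ w : List (α × Bool), ∀ b : FreeGroup α,
      tau p (FreeGroup.mk w * b) = tau p (FreeGroup.mk w) + tau p b + ff n p (FreeGroup.mk w) b := by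
    intro w
    induction w with
    | nil =>
      intro b
      have e : FreeGroup.mk ([] : List (α × Bool)) = 1 := rfl
      have e2 : ff n p 1 b = 0 := by
        refine ind_false fun h1 => ?_
        by_cases hb : b = 1
        · rw [hb, one_mul] at h1
          exact lt_irrefl _ h1
        · rw [one_mul] at h1
          exact lt_asymm h1 (one_lt h hb)
      rw [e, one_mul, tau_one, e2]
      ring
    | cons l w ih =>
      intro b
      have e : FreeGroup.mk (l :: w) = G l * FreeGroup.mk w := by
        unfold G
        rw [FreeGroup.mul_mk]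
        rfl
      rw [e, mul_assoc, tau_letter h, ih, tau_letter h]
      have := ff_cocycle h (G l) (FreeGroup.mk w) b
      linarith
  have := key a.toWord b
  rwa [FreeGroup.mk_toWord] at this

/-- the number of descents along a list of factors -/
noncomputable def desc (n : ℕ) (p : α × Bool → ℕ) : FreeGroup α → List (FreeGroup α) → ℤ
  | _, [] => 0
  | u, a :: w => ff n p u a + desc n p (u * a) w

lemma tau_prod (h : Arr n p) (u : FreeGroup α) (w : List (FreeGroup α)) :
    tau p (u * w.prod) = tau p u + (w.map (tau p)).sum + desc n p u w := by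
  induction w generalizing u with
  | nil => simp [desc]
  | cons a w ih =>
    rw [List.prod_cons, ← mul_assoc, ih, tau_mul h]
    simp only [List.map_cons, List.sum_cons, desc]
    ring

lemma desc_le (u : FreeGroup α) (w : List (FreeGroup α)) : desc n p u w ≤ w.length := by
  induction w generalizing u with
  | nil => simp [desc]
  | cons a w ih =>
    have h1 := ih (u * a)
    have h2 := ind_le (lt n p (u * a) u)
    simp only [desc, List.length_cons]
    unfold ff
    push_cast
    linarith

lemma desc_eq {u : FreeGroup α} {w : List (FreeGroup α)} (h : desc n p u w = w.length) :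
    ∀ (s t : List (FreeGroup α)) (a : FreeGroup α), w = s ++ a :: t →
      lt n p (u * s.prod * a) (u * s.prod) := by
  induction w generalizing u with
  | nil =>
    intro s t a hw
    exact absurd hw (by simp)
  | cons b w ih =>
    intro s t a hw
    have h1 := desc_le (n := n) (p := p) (u * b) w
    have h2 := ind_le (lt n p (u * b) u)
    simp only [desc, List.length_cons] at h
    unfold ff at h
    push_cast at h
    have h3 : ind (lt n p (u * b) u) = 1 := by linarith
    have h4 : desc n p (u * b) w = w.length := by linarith
    cases s with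
    | nil =>
      have h5 := List.cons.inj hw
      rw [List.prod_nil, mul_one, ← h5.1]
      exact ind_eq_one h3
    | cons c s =>
      have h5 := List.cons.inj hw
      have h6 := ih h4 s t a h5.2
      rw [List.prod_cons, ← h5.1, ← mul_assoc]
      exact h6

lemma desc_of {u : FreeGroup α} {w : List (FreeGroup α)}
    (h : ∀ (s t : List (FreeGroup α)) (a : FreeGroup α), w = s ++ a :: t →
      lt n p (u * s.prod * a) (u * s.prod)) : desc n p u w = w.length := by
  induction w generalizing u with
  | nil => simp [desc]
  | cons b w ih =>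
    have h1 := h [] w b rfl
    rw [List.prod_nil, mul_one] at h1
    have h2 := ih (u := u * b) (fun s t a hw => by
      have := h (b :: s) t a (by rw [hw]; rfl)
      rwa [List.prod_cons, ← mul_assoc] at this)
    simp only [desc, List.length_cons]
    unfold ff
    rw [ind_true h1, h2]
    push_cast
    ring

/-- a letter and its inverse -/
lemma tau_inv (h : Arr n p) {a : FreeGroup α} (ha : a ≠ 1) : tau p a + tau p a⁻¹ = -1 := by
  have h1 := tau_mul h a a⁻¹
  rw [mul_inv_cancel, tau_one] at h1
  have h2 : ff n p a a⁻¹ = 1 := by
    refine ind_true ?_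
    rw [mul_inv_cancel]
    exact one_lt h ha
  linarith

end Pool.Agent.N513.PF
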