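import Pool.Agent.N513.PF.Inv

/-!
# The boundary word and its minimality
-/

set_option autoImplicit false
set_option linter.unusedSectionVars false
set_option linter.unusedVariables false

namespace Pool.Agent.N513.PF

variable {α : Type*} [DecidableEq α] {n : ℕ} {p : α × Bool → ℕ}

/-- consecutive letters: the next letter is next to the direction from which one comes -/
def Nxt (p : α × Bool → ℕ) (l m : α × Bool) : Prop := p m = p (iv l) + 1

/-- a boundary word read from the direction `q` to the base -/
def Bd (n : ℕ) (p : α × Bool → ℕ) : ℕ → List (α × Bool) → Prop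
  | q, [] => q + 1 = n
  | q, l :: w => p l = q + 1 ∧ Bd n p (p (iv l)) w

lemma Bd.append {q : ℕ} {u : List (α × Bool)} {l : α × Bool} {w : List (α × Bool)}
    (h : Bd n p q (u ++ l :: w)) :
    Bd n p (p (iv l)) w ∧ (u = [] → p l = q + 1) ∧ (∀ u0 b, u = u0 ++ [b] → p l = p (iv b) + 1) := by
  induction u generalizing q with
  | nil =>
    refine ⟨h.2, fun _ => h.1, fun u0 b hb => ?_⟩
    exact absurd hb (by simp)
  | cons a u ih =>
    obtain ⟨i1, i2, i3⟩ := ih h.2
    refine ⟨i1, fun h => absurd h (List.cons_ne_nil _ _), fun u0 b hb => ?_⟩
    cases u0 with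
    | nil =>
      have h1 : u = [] := by
        have := congrArg List.length hb
        simp at this
        exact this
      subst h1
      have h2 : a = b := by
        simp at hb
        exact hb
      rw [← h2]
      exact i2 rfl
    | cons c u0 =>
      have h1 : u = u0 ++ [b] := (List.cons.inj hb).2
      exact i3 _ _ h1

lemma ltp_append (q : ℕ) (u : List (α × Bool)) (b : α × Bool) (s t : List (α × Bool)) :
    ltp n p q (u ++ b :: s) (u ++ b :: t) ↔ ltp n p (p (iv b)) s t := by
  induction u generalizing q with
  | nil =>
    show (key n q (p b) :: code n p (p (iv b)) s) < (key n q (p b) :: code n p (p (iv b)) t) ↔ _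
    rw [List.cons_lt_cons_iff]
    simp [ltp]
  | cons a u ih =>
    rw [← ih (p (iv a))]
    show (key n q (p a) :: code n p (p (iv a)) (u ++ b :: s)) <
      (key n q (p a) :: code n p (p (iv a)) (u ++ b :: t)) ↔ _
    rw [List.cons_lt_cons_iff]
    simp [ltp]

/-- minimality of the boundary word -/
lemma Bd.min (h : Arr n p) {q : ℕ} (hq : q < n) {s w : List (α × Bool)} (hs : Bd n p q s)
    (hw : FreeGroup.IsReduced w) (hw1 : hd p w ≠ q) (hne : s ≠ w) :
    ltp n p q s w := by
  induction s generalizing q w with
  | nil =>
    have h1 : q + 1 = n := hs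
    rw [ltp_iff h hq]
    left
    cases w with
    | nil => exact absurd rfl hne
    | cons m w =>
      have h2 := h.hi m
      have h3 := h.lo m
      simp only [hd] at hw1 ⊢
      rw [key_val hq h.n0, key_val hq h2]
      split_ifs <;> omega
  | cons l s ih =>
    obtain ⟨h1, h2⟩ := hs
    have h3 := h.hi l
    rw [ltp_iff h hq]
    cases w with
    | nil =>
      left
      simp only [hd] at hw1 ⊢
      rw [key_val hq h.n0, key_val hq h3]
      split_ifs <;> omega
    | cons m w =>
      have h4 := h.hi m
      simp only [hd] at hw1 ⊢
      by_cases hlm : l = m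
      · subst hlm
        right
        refine ⟨rfl, ?_⟩
        refine ih (h.hi _) h2 (red_sub hw ⟨[l], [], by simp⟩) ?_ (fun h5 => hne (by rw [h5]))
        cases w with
        | nil => exact (h.lo _).ne
        | cons m' w =>
          simp only [hd]
          intro h6
          have h7 := h.inj h6
          rw [h7, FreeGroup.isReduced_cons_cons] at hw
          have h8 := hw.1 rfl
          have h9 : (iv l).2 = !l.2 := rfl
          rw [h9] at h8
          cases hl : l.2 <;> rw [hl] at h8 <;> simp at h8
      · left
        have h5 : p l ≠ p m := fun h6 => hlm (h.inj h6)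
        rw [key_val hq h3, key_val hq h4]
        split_ifs <;> omega

end Pool.Agent.N513.PF
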